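import Mathlib

set_option autoImplicit false

/-!
# The set of all countable ordinals
-/

namespace Pool.Agent.TH766.KT

open Cardinal Set

/-- A set of size `ℵ₁`, well-ordered in its least order type. -/
abbrev W1 : Type := (ℵ_ 1 : Cardinal.{0}).ord.ToType

theorem mk_W1 : #W1 = ℵ_ 1 := Cardinal.mk_ord_toType _

theorem countable_Iio (i : W1) : (Iio i).Countable := by
  rw [← Set.countable_coe_iff, ← Cardinal.mk_le_aleph0_iff]
  have h1 : #(Iio i) < ℵ_ 1 := Cardinal.mk_Iio_toType_ord_lt i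
  have h2 : #(Iio i) < Order.succ ℵ₀ := by rw [succ_aleph0]; exact h1
  exact Order.lt_succ_iff.1 h2

theorem countable_Iic (i : W1) : (Iic i).Countable := by
  have h : Iic i = insert i (Iio i) := by
    ext x
    simp [le_iff_lt_or_eq, or_comm]
  rw [h]
  exact (countable_Iio i).insert i

theorem uncountable_univ : ¬ (univ : Set W1).Countable := by
  rw [← Set.countable_coe_iff, ← Cardinal.mk_le_aleph0_iff, mk_univ, mk_W1, not_le]
  exact aleph0_lt_aleph_one

theorem exists_gt (s : Set W1) (hs : s.Countable) : ∃ b, ∀ x ∈ s, x < b := by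
  by_contra h
  push Not at h
  apply uncountable_univ
  refine (hs.biUnion (t := fun x _ => Iic x) (fun x _ => countable_Iic x)).mono ?_
  intro b _
  obtain ⟨x, hx, hb⟩ := h b
  exact mem_biUnion hx hb

theorem exists_gt_of (a : W1) : ∃ b, a < b := by
  obtain ⟨b, hb⟩ := exists_gt {a} (countable_singleton a)
  exact ⟨b, hb a rfl⟩

theorem exists_lub (f : ℕ → W1) : ∃ b, IsLUB (range f) b := by
  obtain ⟨b0, hb0⟩ := exists_gt (range f) (countable_range f)
  have hne : (upperBounds (range f)).Nonempty := ⟨b0, fun x hx => (hb0 x hx).le⟩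
  obtain ⟨b, hb, hmin⟩ := (wellFounded_lt (α := W1)).has_min _ hne
  exact ⟨b, hb, fun c hc => not_lt.1 (hmin c hc)⟩

/-- There is an injective map from the countable ordinals to the unit interval. -/
theorem exists_real : ∃ r : W1 → ℝ, Function.Injective r ∧ ∀ i, 0 < r i ∧ r i < 1 := by
  have h1 : #W1 ≤ #(Ioo (0 : ℝ) 1) := by
    rw [mk_W1, Cardinal.mk_Ioo_real one_pos]
    exact Cardinal.aleph_one_le_continuum
  obtain ⟨j⟩ := h1
  exact ⟨fun i => (j i).1, fun a b h => j.injective (Subtype.ext h), fun i => (j i).2⟩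

/-- Sets with countably many elements in a set of size `κ`. -/
theorem mk_countable_sets {α : Type} {κ : Cardinal.{0}} (hκ : ℵ₀ ≤ κ) (hα : #α ≤ κ)
    (h : κ ^ ℵ₀ = κ) : #{s : Set α // s.Countable} ≤ κ := by
  have h1 : #{s : Set α // s.Countable} ≤ #{s : Set α // #s ≤ ℵ₀} := by
    refine Cardinal.mk_le_of_injective (f := fun s => ⟨s.1, Cardinal.mk_le_aleph0_iff.2
      (Set.countable_coe_iff.2 s.2)⟩) ?_
    intro s t hst
    exact Subtype.ext (congrArg (fun u : {s : Set α // #s ≤ ℵ₀} => u.1) hst)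
  refine h1.trans ((Cardinal.mk_bounded_set_le α ℵ₀).trans ?_)
  calc max #α ℵ₀ ^ ℵ₀ ≤ κ ^ ℵ₀ := Cardinal.power_le_power_right (max_le hα hκ)
    _ = κ := h

end Pool.Agent.TH766.KT
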