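import Mathlib
import Pool.Agent.TH766.KT.Base

set_option autoImplicit false

/-!
# Countable approximations of a tree with countable levels and many branches
-/

namespace Pool.Agent.TH766.KT

open Cardinal Set

/-- A condition: countably many names of branches, and the restrictions of these branches to a
countable ordinal. -/
@[ext]
structure Cond (K : Type) where
  X : Set K
  a : W1
  b : K → W1 → Bool
  hc : X.Countable
  hne : X.Nonempty
  out : ∀ x ξ, b x ξ = true → x ∈ X ∧ ξ < a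
  sep : ∀ x ∈ X, ∀ y ∈ X, x ≠ y → ∃ ξ < a, b x ξ ≠ b y ξ

variable {K : Type}

theorem Cond.b_out {p : Cond K} {x : K} {ξ : W1} (h : ¬ (x ∈ p.X ∧ ξ < p.a)) :
    p.b x ξ = false := by
  cases h' : p.b x ξ with
  | false => rfl
  | true => exact (h (p.out x ξ h')).elim

instance : Preorder (Cond K) where
  le q p := p.X ⊆ q.X ∧ p.a ≤ q.a ∧ (∀ x ∈ p.X, ∀ ξ < p.a, q.b x ξ = p.b x ξ) ∧
    ∀ y ∈ q.X, ∃ x ∈ p.X, ∀ ξ < p.a, q.b y ξ = p.b x ξ
  le_refl p := ⟨Subset.rfl, le_rfl, fun _ _ _ _ => rfl, fun y hy => ⟨y, hy, fun _ _ => rfl⟩⟩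
  le_trans r q p h h' := by
    refine ⟨h'.1.trans h.1, h'.2.1.trans h.2.1, ?_, ?_⟩
    · intro x hx ξ hξ
      rw [h.2.2.1 x (h'.1 hx) ξ (hξ.trans_le h'.2.1), h'.2.2.1 x hx ξ hξ]
    · intro y hy
      obtain ⟨x, hx, h1⟩ := h.2.2.2 y hy
      obtain ⟨z, hz, h2⟩ := h'.2.2.2 x hx
      exact ⟨z, hz, fun ξ hξ => (h1 ξ (hξ.trans_le h'.2.1)).trans (h2 ξ hξ)⟩

theorem le_def {q p : Cond K} : q ≤ p ↔ p.X ⊆ q.X ∧ p.a ≤ q.a ∧
    (∀ x ∈ p.X, ∀ ξ < p.a, q.b x ξ = p.b x ξ) ∧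
    ∀ y ∈ q.X, ∃ x ∈ p.X, ∀ ξ < p.a, q.b y ξ = p.b x ξ := Iff.rfl

/-- Lower bounds of descending sequences. -/
theorem exists_lower (p : ℕ → Cond K) (hp : ∀ n, p (n + 1) ≤ p n) :
    ∃ q : Cond K, (∀ n, q ≤ p n) ∧ q.X = (⋃ n, (p n).X) ∧ IsLUB (range fun n => (p n).a) q.a := by
  classical
  have anti : ∀ {m n : ℕ}, m ≤ n → p n ≤ p m := fun {m n} h => antitone_nat_of_succ_le hp h
  obtain ⟨a, ha⟩ := exists_lub (fun n => (p n).a)
  have hle : ∀ n, (p n).a ≤ a := fun n => ha.1 ⟨n, rfl⟩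
  have key : ∀ n, ∀ x ∈ (p n).X, ∀ ξ < (p n).a,
      decide (∃ m, (p m).b x ξ = true) = (p n).b x ξ := by
    intro n x hx ξ hξ
    cases h : (p n).b x ξ with
    | true => exact decide_eq_true ⟨n, h⟩
    | false =>
      refine decide_eq_false ?_
      rintro ⟨m, hm⟩
      rcases le_total m n with hmn | hmn
      · obtain ⟨h1, h2⟩ := (p m).out x ξ hm
        have h3 := (anti hmn).2.2.1 x h1 ξ h2
        rw [h, hm] at h3
        exact absurd h3 (by simp)
      · have h3 := (anti hmn).2.2.1 x hx ξ hξ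
        rw [h, hm] at h3
        exact absurd h3 (by simp)
  have hlow : ∀ n, (p n).X ⊆ (⋃ n, (p n).X) ∧ (p n).a ≤ a ∧
      (∀ x ∈ (p n).X, ∀ ξ < (p n).a, decide (∃ m, (p m).b x ξ = true) = (p n).b x ξ) ∧
      ∀ y ∈ (⋃ n, (p n).X), ∃ x ∈ (p n).X, ∀ ξ < (p n).a,
        decide (∃ m, (p m).b y ξ = true) = (p n).b x ξ := by
    intro n
    refine ⟨subset_iUnion (fun n => (p n).X) n, hle n, key n, ?_⟩
    intro y hy
    obtain ⟨m, hm⟩ := mem_iUnion.1 hy
    have h1 : y ∈ (p (max m n)).X := (anti (le_max_left m n)).1 hm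
    obtain ⟨x, hx, h2⟩ := (anti (le_max_right m n)).2.2.2 y h1
    refine ⟨x, hx, fun ξ hξ => ?_⟩
    rw [key (max m n) y h1 ξ (hξ.trans_le (anti (le_max_right m n)).2.1)]
    exact h2 ξ hξ
  refine ⟨{ X := ⋃ n, (p n).X, a := a, b := fun x ξ => decide (∃ m, (p m).b x ξ = true),
            hc := countable_iUnion fun n => (p n).hc
            hne := ⟨(p 0).hne.some, mem_iUnion.2 ⟨0, (p 0).hne.some_mem⟩⟩
            out := ?_, sep := ?_ }, fun n => hlow n, rfl, ha⟩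
  · intro x ξ h
    obtain ⟨m, hm⟩ := of_decide_eq_true h
    obtain ⟨h1, h2⟩ := (p m).out x ξ hm
    exact ⟨mem_iUnion.2 ⟨m, h1⟩, h2.trans_le (hle m)⟩
  · intro x hx y hy hxy
    obtain ⟨m, hm⟩ := mem_iUnion.1 hx
    obtain ⟨n, hn⟩ := mem_iUnion.1 hy
    have h1 : x ∈ (p (max m n)).X := (anti (le_max_left m n)).1 hm
    have h2 : y ∈ (p (max m n)).X := (anti (le_max_right m n)).1 hn
    obtain ⟨ξ, hξ, h3⟩ := (p (max m n)).sep x h1 y h2 hxy
    refine ⟨ξ, hξ.trans_le (hle _), ?_⟩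
    rw [key _ x h1 ξ hξ, key _ y h2 ξ hξ]
    exact h3

/-- Adding a name. -/
theorem exists_add (p : Cond K) {x y : K} (hx : x ∈ p.X) (hy : y ∉ p.X) :
    ∃ q ≤ p, y ∈ q.X := by
  classical
  obtain ⟨a, ha⟩ := exists_gt_of p.a
  refine ⟨{ X := insert y p.X, a := a
            b := fun z ξ => if z = y then (if ξ = p.a then true else p.b x ξ) else p.b z ξ
            hc := p.hc.insert y, hne := ⟨y, mem_insert _ _⟩, out := ?_, sep := ?_ }, ?_,
            mem_insert _ _⟩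
  · intro z ξ h
    by_cases hz : z = y
    · rw [if_pos hz] at h
      refine ⟨Or.inl hz, ?_⟩
      by_cases hξ : ξ = p.a
      · rw [hξ]
        exact ha
      · rw [if_neg hξ] at h
        exact (p.out x ξ h).2.trans ha
    · rw [if_neg hz] at h
      exact ⟨Or.inr (p.out z ξ h).1, (p.out z ξ h).2.trans ha⟩
  · have hn : ∀ z ∈ p.X, z ≠ y := fun z hz h => hy (h ▸ hz)
    have hpa : ∀ z, p.b z p.a = false := fun z => Cond.b_out fun h => lt_irrefl _ h.2
    rintro z (rfl | hz) w (rfl | hw) hzw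
    · exact (hzw rfl).elim
    · refine ⟨p.a, ha, ?_⟩
      rw [if_pos rfl, if_pos rfl, if_neg (hn w hw), hpa]
      simp
    · refine ⟨p.a, ha, ?_⟩
      rw [if_pos rfl, if_pos rfl, if_neg (hn z hz), hpa]
      simp
    · obtain ⟨ξ, hξ, h⟩ := p.sep z hz w hw hzw
      refine ⟨ξ, hξ.trans ha, ?_⟩
      rw [if_neg (hn w hw), if_neg (hn z hz)]
      exact h
  · refine ⟨subset_insert _ _, ha.le, ?_, ?_⟩
    · intro z hz ξ hξ
      exact if_neg (fun h : z = y => hy (h ▸ hz))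
    · rintro z (rfl | hz)
      · refine ⟨x, hx, fun ξ hξ => ?_⟩
        show (if z = z then (if ξ = p.a then true else p.b x ξ) else p.b z ξ) = p.b x ξ
        rw [if_pos rfl, if_neg hξ.ne]
      · exact ⟨z, hz, fun ξ hξ => if_neg (fun h : z = y => hy (h ▸ hz))⟩

theorem exists_mem (p : Cond K) (y : K) : ∃ q ≤ p, y ∈ q.X := by
  by_cases hy : y ∈ p.X
  · exact ⟨p, le_rfl, hy⟩
  · exact exists_add p p.hne.some_mem hy

/-- Adding levels. -/
theorem exists_height (p : Cond K) (c : W1) : ∃ q ≤ p, c ≤ q.a := by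
  refine ⟨{ X := p.X, a := max p.a c, b := p.b, hc := p.hc, hne := p.hne, out := ?_, sep := ?_ },
    ?_, le_max_right _ _⟩
  · intro x ξ h
    exact ⟨(p.out x ξ h).1, (p.out x ξ h).2.trans_le (le_max_left _ _)⟩
  · intro x hx y hy hxy
    obtain ⟨ξ, hξ, h⟩ := p.sep x hx y hy hxy
    exact ⟨ξ, hξ.trans_le (le_max_left _ _), h⟩
  · exact ⟨Subset.rfl, le_max_left _ _, fun _ _ _ _ => rfl, fun y hy => ⟨y, hy, fun _ _ => rfl⟩⟩

/-- Compatibility. -/
theorem compat {p q : Cond K} (ha : p.a = q.a) (hX : ∀ x ∈ p.X, x ∈ q.X → p.b x = q.b x)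
    (h1 : ∀ x ∈ p.X, ∃ y ∈ q.X, p.b x = q.b y) (h2 : ∀ y ∈ q.X, ∃ x ∈ p.X, p.b x = q.b y) :
    ∃ r, r ≤ p ∧ r ≤ q := by
  classical
  obtain ⟨a, hlt⟩ := exists_gt_of p.a
  let b : K → W1 → Bool := fun z ξ => if z ∈ p.X then p.b z ξ else
    if z ∈ q.X then (if ξ = p.a then true else q.b z ξ) else false
  have hbp : ∀ z ∈ p.X, ∀ ξ, b z ξ = p.b z ξ := fun z hz ξ => if_pos hz
  have hbq : ∀ z ∈ q.X, ∀ ξ < p.a, b z ξ = q.b z ξ := by
    intro z hz ξ hξ
    by_cases hzp : z ∈ p.X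
    · rw [hbp z hzp, hX z hzp hz]
    · show (if z ∈ p.X then p.b z ξ else
        if z ∈ q.X then (if ξ = p.a then true else q.b z ξ) else false) = q.b z ξ
      rw [if_neg hzp, if_pos hz, if_neg hξ.ne]
  have hbn : ∀ z ∈ q.X, z ∉ p.X → b z p.a = true := by
    intro z hz hzp
    show (if z ∈ p.X then p.b z p.a else
      if z ∈ q.X then (if p.a = p.a then true else q.b z p.a) else false) = true
    rw [if_neg hzp, if_pos hz, if_pos rfl]
  have hpa : ∀ z, p.b z p.a = false := fun z => Cond.b_out fun h => lt_irrefl _ h.2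
  refine ⟨{ X := p.X ∪ q.X, a := a, b := b, hc := p.hc.union q.hc,
            hne := p.hne.mono subset_union_left, out := ?_, sep := ?_ }, ?_, ?_⟩
  · intro z ξ h
    by_cases hz : z ∈ p.X
    · rw [hbp z hz] at h
      exact ⟨Or.inl hz, (p.out z ξ h).2.trans hlt⟩
    · by_cases hzq : z ∈ q.X
      · refine ⟨Or.inr hzq, ?_⟩
        have h' : (if z ∈ p.X then p.b z ξ else
          if z ∈ q.X then (if ξ = p.a then true else q.b z ξ) else false) = true := h
        rw [if_neg hz, if_pos hzq] at h'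
        by_cases hξ : ξ = p.a
        · rw [hξ]
          exact hlt
        · rw [if_neg hξ] at h'
          have := (q.out z ξ h').2
          rw [← ha] at this
          exact this.trans hlt
      · have h' : (if z ∈ p.X then p.b z ξ else
          if z ∈ q.X then (if ξ = p.a then true else q.b z ξ) else false) = true := h
        rw [if_neg hz, if_neg hzq] at h'
        exact absurd h' (by simp)
  · intro x hx y hy hxy
    by_cases hxp : x ∈ p.X
    · by_cases hyp : y ∈ p.X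
      · obtain ⟨ξ, hξ, h⟩ := p.sep x hxp y hyp hxy
        refine ⟨ξ, hξ.trans hlt, ?_⟩
        rw [hbp x hxp, hbp y hyp]
        exact h
      · have hyq : y ∈ q.X := hy.resolve_left hyp
        refine ⟨p.a, hlt, ?_⟩
        rw [hbp x hxp, hpa, hbn y hyq hyp]
        simp
    · have hxq : x ∈ q.X := hx.resolve_left hxp
      by_cases hyp : y ∈ p.X
      · refine ⟨p.a, hlt, ?_⟩
        rw [hbp y hyp, hpa, hbn x hxq hxp]
        simp
      · have hyq : y ∈ q.X := hy.resolve_left hyp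
        obtain ⟨ξ, hξ, h⟩ := q.sep x hxq y hyq hxy
        rw [← ha] at hξ
        refine ⟨ξ, hξ.trans hlt, ?_⟩
        rw [hbq x hxq ξ hξ, hbq y hyq ξ hξ]
        exact h
  · refine ⟨subset_union_left, hlt.le, fun x hx ξ _ => hbp x hx ξ, ?_⟩
    rintro y (hy | hy)
    · exact ⟨y, hy, fun ξ _ => hbp y hy ξ⟩
    · obtain ⟨x, hx, h⟩ := h2 y hy
      refine ⟨x, hx, fun ξ hξ => ?_⟩
      rw [h]
      exact hbq y hy ξ hξ
  · refine ⟨subset_union_right, ha.symm.le.trans hlt.le, fun x hx ξ hξ => hbq x hx ξ (ha ▸ hξ), ?_⟩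
    rintro y (hy | hy)
    · obtain ⟨x, hx, h⟩ := h1 y hy
      refine ⟨x, hx, fun ξ hξ => ?_⟩
      rw [← h]
      exact hbp y hy ξ
    · exact ⟨y, hy, fun ξ hξ => hbq y hy ξ (ha ▸ hξ)⟩

end Pool.Agent.TH766.KT
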