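import Mathlib
import Pool.Agent.Helper669.Forcing
import Pool.Agent.TH766.KT.Cond

set_option autoImplicit false

/-!
# Meeting countably many dense sets; the levels at which branches split
-/

namespace Pool.Agent.TH766.KT

open Cardinal Set Pool.Agent.Helper669.Forcing

variable {K : Type}

/-- Meeting countably many dense sets below a condition. -/
theorem exists_forall_mem {N : Type} [Countable N] (D : N → Set (Cond K))
    (hdown : ∀ i, Down (D i)) (q : Cond K) (hdense : ∀ i, ∀ r ≤ q, ∃ s ≤ r, s ∈ D i) :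
    ∃ r ≤ q, ∀ i, r ∈ D i := by
  classical
  rcases isEmpty_or_nonempty N with hE | hne
  · exact ⟨q, le_rfl, fun i => (hE.false i).elim⟩
  obtain ⟨e, he⟩ := exists_surjective_nat N
  have step : ∀ (n : ℕ) (r : {r : Cond K // r ≤ q}),
      ∃ s : {s : Cond K // s ≤ q}, s.1 ≤ r.1 ∧ s.1 ∈ D (e n) := by
    intro n r
    obtain ⟨s, hs, h⟩ := hdense (e n) r.1 r.2
    exact ⟨⟨s, hs.trans r.2⟩, hs, h⟩
  choose g hg1 hg2 using step
  let p : ℕ → {r : Cond K // r ≤ q} := fun n => Nat.rec ⟨q, le_rfl⟩ (fun n r => g n r) n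
  have hp : ∀ n, p (n + 1) = g n (p n) := fun n => rfl
  obtain ⟨r, hr, _⟩ := exists_lower (fun n => (p n).1) (fun n => by
    show (p (n + 1)).1 ≤ (p n).1
    rw [hp]
    exact hg1 n (p n))
  refine ⟨r, hr 0, fun i => ?_⟩
  obtain ⟨n, rfl⟩ := he i
  have h1 : (p (n + 1)).1 ∈ D (e n) := by
    rw [hp]
    exact hg2 n (p n)
  exact hdown _ _ h1 _ (hr (n + 1))

/-- No new functions on countable sets. -/
theorem decide_fun (A Y : Type) (hA : #A ≤ ℵ₀) (R : A → Y → Set (Cond K)) (p : Cond K)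
    (hp : p ∈ IsFun R) : ∃ q ≤ p, ∃ f : A → Y, ∀ a, q ∈ meets (R a (f a)) := by
  have : Countable A := Cardinal.mk_le_aleph0_iff.1 hA
  obtain ⟨q, hq, h⟩ := exists_forall_mem (fun a => {r | ∃ y, r ∈ meets (R a y)})
    (fun a r ⟨y, hy⟩ s hs => ⟨y, down_meets _ _ hy _ hs⟩) p
    (fun a r hr => by
      obtain ⟨s, hs, y, hy⟩ := IsFun.total (down_IsFun _ _ hp _ hr) a
      exact ⟨s, hs, y, hy⟩)
  choose f hf using h
  exact ⟨q, hq, f, hf⟩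

/-- The branches named `x` and `y` split at level `δ`. -/
def Dl (p : Cond K) (x y : K) (δ : W1) : Prop :=
  x ∈ p.X ∧ y ∈ p.X ∧ δ < p.a ∧ (∀ ξ < δ, p.b x ξ = p.b y ξ) ∧ p.b x δ ≠ p.b y δ

theorem Dl.mono {p q : Cond K} {x y : K} {δ : W1} (h : Dl p x y δ) (hq : q ≤ p) : Dl q x y δ := by
  obtain ⟨h1, h2, h3, h4, h5⟩ := h
  refine ⟨hq.1 h1, hq.1 h2, h3.trans_le hq.2.1, ?_, ?_⟩
  · intro ξ hξ
    rw [hq.2.2.1 x h1 ξ (hξ.trans h3), hq.2.2.1 y h2 ξ (hξ.trans h3)]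
    exact h4 ξ hξ
  · rw [hq.2.2.1 x h1 δ h3, hq.2.2.1 y h2 δ h3]
    exact h5

theorem Dl.symm {p : Cond K} {x y : K} {δ : W1} (h : Dl p x y δ) : Dl p y x δ :=
  ⟨h.2.1, h.1, h.2.2.1, fun ξ hξ => (h.2.2.2.1 ξ hξ).symm, h.2.2.2.2.symm⟩

theorem Dl.unique {p : Cond K} {x y : K} {δ ε : W1} (h : Dl p x y δ) (h' : Dl p x y ε) :
    δ = ε := by
  rcases lt_trichotomy δ ε with h1 | h1 | h1
  · exact (h.2.2.2.2 (h'.2.2.2.1 δ h1)).elim
  · exact h1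
  · exact (h'.2.2.2.2 (h.2.2.2.1 ε h1)).elim

theorem Dl.ne {p : Cond K} {x y : K} {δ : W1} (h : Dl p x y δ) : x ≠ y := by
  rintro rfl
  exact h.2.2.2.2 rfl

theorem Dl.trans {p : Cond K} {x y z : K} {δ ε : W1} (h : Dl p x y δ) (h' : Dl p y z ε)
    (hlt : δ < ε) : Dl p x z δ := by
  refine ⟨h.1, h'.2.1, h.2.2.1, ?_, ?_⟩
  · intro ξ hξ
    rw [h.2.2.2.1 ξ hξ, h'.2.2.2.1 ξ (hξ.trans hlt)]
  · rw [← h'.2.2.2.1 δ hlt]
    exact h.2.2.2.2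

theorem exists_Dl (p : Cond K) {x y : K} (hx : x ∈ p.X) (hy : y ∈ p.X) (hxy : x ≠ y) :
    ∃ δ, Dl p x y δ := by
  obtain ⟨ξ, hξ, h⟩ := p.sep x hx y hy hxy
  obtain ⟨δ, hδ, hmin⟩ := (wellFounded_lt (α := W1)).has_min {ξ | p.b x ξ ≠ p.b y ξ} ⟨ξ, h⟩
  refine ⟨δ, hx, hy, ?_, ?_, hδ⟩
  · exact (not_lt.1 fun h' => hmin ξ h h').trans_lt hξ
  · intro η hη
    by_contra h'
    exact hmin η h' hη

theorem Dl.back {p q : Cond K} {x y : K} {δ : W1} (h : Dl q x y δ) (hq : q ≤ p)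
    (hx : x ∈ p.X) (hy : y ∈ p.X) : Dl p x y δ := by
  obtain ⟨ε, hε⟩ := exists_Dl p hx hy h.ne
  rw [h.unique (hε.mono hq)]
  exact hε

end Pool.Agent.TH766.KT
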