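import Mathlib
import Pool.Agent.TH766.KT.Dense

set_option autoImplicit false

/-!
# Every uncountable set of branches contains combs
-/

namespace Pool.Agent.TH766.KT

open Cardinal Set Pool.Agent.Helper669.Forcing

variable {K : Type}

/-- `s` forces that `a ≠ x` is a value of the function named by `R`. -/
def Val (R : W1 → K → Set (Cond K)) (x : K) (s : Cond K) (a : K) : Prop :=
  a ≠ x ∧ ∃ i, s ∈ meets (R i a)

theorem Val.mono {R : W1 → K → Set (Cond K)} {x : K} {s t : Cond K} {a : K}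
    (h : Val R x s a) (hs : t ≤ s) : Val R x t a :=
  ⟨h.1, h.2.imp fun _ h' => down_meets _ _ h' _ hs⟩

/-- Below `r` no value different from `x` agrees with `x` up to `ξ`. -/
def Killed (R : W1 → K → Set (Cond K)) (r : Cond K) (x : K) (ξ : W1) : Prop :=
  ∀ s ≤ r, ∀ a ∈ s.X, Val R x s a → ξ ≤ s.a → ∃ η < ξ, s.b a η ≠ s.b x η

theorem Killed.mono {R : W1 → K → Set (Cond K)} {r s : Cond K} {x : K} {ξ : W1}
    (h : Killed R r x ξ) (hs : s ≤ r) : Killed R s x ξ :=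
  fun t ht => h t (ht.trans hs)

/-- New values of an injective function. -/
theorem exists_new {R : W1 → K → Set (Cond K)} {q : Cond K} (hf : q ∈ IsFun R)
    (hi : q ∈ IsInj R) (X : Set K) (hX : X.Countable) :
    ∃ t ≤ q, ∃ i a, t ∈ meets (R i a) ∧ a ∉ X := by
  have : Countable X := Set.countable_coe_iff.2 hX
  obtain ⟨s, hs, h⟩ := exists_forall_mem (N := X)
    (fun a => {s | (∃ i, s ∈ meets (R i a.1)) ∨ ∀ i, s ∈ fnot (meets (R i a.1))})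
    (by
      rintro a s (⟨i, h⟩ | h) t ht
      · exact Or.inl ⟨i, down_meets _ _ h _ ht⟩
      · exact Or.inr fun i => down_fnot _ _ (h i) _ ht) q
    (by
      intro a r _
      by_cases h : ∃ s ≤ r, ∃ i, s ∈ meets (R i a.1)
      · obtain ⟨s, hs, i, h⟩ := h
        exact ⟨s, hs, Or.inl ⟨i, h⟩⟩
      · push Not at h
        exact ⟨r, le_rfl, Or.inr fun i s hs h' => h s hs i h'⟩)
  have hI : {i | ∃ a : X, s ∈ meets (R i a.1)}.Countable := by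
    have h1 : {i | ∃ a : X, s ∈ meets (R i a.1)} = ⋃ a : X, {i | s ∈ meets (R i a.1)} := by
      ext i
      simp
    rw [h1]
    refine countable_iUnion fun a => Set.Subsingleton.countable ?_
    intro i hi' j hj'
    exact IsInj.eq (down_IsInj _ _ hi _ hs) hi' hj'
  have h2 : ∃ i, i ∉ {i | ∃ a : X, s ∈ meets (R i a.1)} := by
    by_contra hcon
    push Not at hcon
    exact uncountable_univ (hI.mono fun i _ => hcon i)
  obtain ⟨i, hi'⟩ := h2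
  obtain ⟨t, ht, a, h3⟩ := IsFun.total (down_IsFun _ _ hf _ hs) i
  refine ⟨t, ht.trans hs, i, a, h3, fun ha => ?_⟩
  rcases h ⟨a, ha⟩ with ⟨j, hj⟩ | hj
  · have h4 := IsInj.eq (down_IsInj _ _ hi _ (ht.trans hs)) h3 (down_meets _ _ hj _ ht)
    exact hi' ⟨⟨a, ha⟩, h4 ▸ hj⟩
  · exact hj i t ht h3

/-- Some branch is a limit of values. -/
theorem exists_good {R : W1 → K → Set (Cond K)} {p : Cond K} (hf : p ∈ IsFun R)
    (hi : p ∈ IsInj R) : ∃ q ≤ p, ∃ x ∈ q.X, ∀ r ≤ q, ∀ ξ, ¬ Killed R r x ξ := by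
  classical
  by_contra hcon
  push Not at hcon
  have step : ∀ r : {r : Cond K // r ≤ p}, ∃ s : {s : Cond K // s ≤ p}, s.1 ≤ r.1 ∧
      ∀ x ∈ r.1.X, ∃ ξ ≤ s.1.a, Killed R s.1 x ξ := by
    rintro ⟨r, hr⟩
    have : Countable r.X := Set.countable_coe_iff.2 r.hc
    obtain ⟨s, hs, h⟩ := exists_forall_mem (N := r.X)
      (fun x => {s | ∃ ξ ≤ s.a, Killed R s x.1 ξ})
      (by
        rintro x s ⟨ξ, hξ, h⟩ t ht
        exact ⟨ξ, hξ.trans ht.2.1, h.mono ht⟩) r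
      (by
        intro x s hs
        obtain ⟨t, ht, ξ, h⟩ := hcon s (hs.trans hr) x.1 (hs.1 x.2)
        obtain ⟨u, hu, hu'⟩ := exists_height t ξ
        exact ⟨u, hu.trans ht, ξ, hu', h.mono hu⟩)
    exact ⟨⟨s, hs.trans hr⟩, hs, fun x hx => h ⟨x, hx⟩⟩
  choose g hg1 hg2 using step
  let P : ℕ → {r : Cond K // r ≤ p} := fun n => Nat.rec ⟨p, le_rfl⟩ (fun _ r => g r) n
  have hP : ∀ n, P (n + 1) = g (P n) := fun n => rfl
  obtain ⟨q, hq, hqX, hqa⟩ := exists_lower (fun n => (P n).1) (fun n => by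
    show (P (n + 1)).1 ≤ (P n).1
    rw [hP]
    exact hg1 (P n))
  have hkill : ∀ x ∈ q.X, ∃ ξ ≤ q.a, Killed R q x ξ := by
    intro x hx
    rw [hqX] at hx
    obtain ⟨n, hn⟩ := mem_iUnion.1 hx
    obtain ⟨ξ, hξ, h⟩ := hg2 (P n) x hn
    rw [← hP] at hξ h
    exact ⟨ξ, hξ.trans (hq (n + 1)).2.1, h.mono (hq (n + 1))⟩
  obtain ⟨t, ht, i, a, h1, h2⟩ := exists_new (down_IsFun _ _ hf _ (hq 0))
    (down_IsInj _ _ hi _ (hq 0)) q.X q.hc
  obtain ⟨u, hu, hau⟩ := exists_mem t a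
  have huq : u ≤ q := hu.trans ht
  obtain ⟨x, hx, h3⟩ := huq.2.2.2 a hau
  obtain ⟨ξ, hξ, h4⟩ := hkill x hx
  have hax : a ≠ x := fun h => h2 (h ▸ hx)
  obtain ⟨η, hη, h5⟩ := h4 u huq a hau ⟨hax, i, down_meets _ _ h1 _ hu⟩ (hξ.trans huq.2.1)
  apply h5
  rw [h3 η (hη.trans_le hξ), huq.2.2.1 x hx η (hη.trans_le hξ)]

/-- `s` forces that a value splits from `x` at `δ`. -/
def E (R : W1 → K → Set (Cond K)) (x : K) (s : Cond K) (δ : W1) : Prop :=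
  ∃ a, Val R x s a ∧ Dl s a x δ

theorem E.mono {R : W1 → K → Set (Cond K)} {x : K} {s t : Cond K} {δ : W1}
    (h : E R x s δ) (hs : t ≤ s) : E R x t δ := by
  obtain ⟨a, h1, h2⟩ := h
  exact ⟨a, h1.mono hs, h2.mono hs⟩

/-- There are arbitrarily large splitting levels `δ` with `t < ρ δ`. -/
def U (R : W1 → K → Set (Cond K)) (ρ : W1 → ℝ) (x : K) (r : Cond K) (t : ℝ) : Prop :=
  ∀ ξ, ∀ r' ≤ r, ∃ s ≤ r', ∃ δ, ξ ≤ δ ∧ t < ρ δ ∧ E R x s δ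

theorem U.mono {R : W1 → K → Set (Cond K)} {ρ : W1 → ℝ} {x : K} {r s : Cond K} {t u : ℝ}
    (h : U R ρ x r t) (hs : s ≤ r) (hu : u ≤ t) : U R ρ x s u := by
  intro ξ r' hr'
  obtain ⟨s', hs', δ, h1, h2, h3⟩ := h ξ r' (hr'.trans hs)
  exact ⟨s', hs', δ, h1, hu.trans_lt h2, h3⟩

theorem U_zero {R : W1 → K → Set (Cond K)} {ρ : W1 → ℝ} (hρ : ∀ i, 0 < ρ i) {x : K} {q : Cond K}
    (hx : x ∈ q.X) (h : ∀ r ≤ q, ∀ ξ, ¬ Killed R r x ξ) : U R ρ x q 0 := by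
  intro ξ r' hr'
  have h1 := h r' hr' ξ
  simp only [Killed, not_forall] at h1
  obtain ⟨s, hs, a, ha, hv, hξ, h2⟩ := h1
  push Not at h2
  obtain ⟨δ, hδ⟩ := exists_Dl s ha (hs.1 (hr'.1 hx)) hv.1
  refine ⟨s, hs, δ, ?_, hρ δ, a, hv, hδ⟩
  by_contra hlt
  push Not at hlt
  exact hδ.2.2.2.2 (h2 δ hlt)

/-- The successor step. -/
theorem U_step {R : W1 → K → Set (Cond K)} {ρ : W1 → ℝ} (hρ : Function.Injective ρ) {x : K}
    {r : Cond K} {t : ℝ} (h : U R ρ x r t) (ξ : W1) :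
    ∃ s ≤ r, ∃ δ, ξ < δ ∧ t < ρ δ ∧ E R x s δ ∧ U R ρ x s (ρ δ) := by
  obtain ⟨s0, hs0, h0⟩ := exists_forall_mem (N := ℚ)
    (fun t' => {s | U R ρ x s t' ∨ ∃ ξ, ∀ s' ≤ s, ∀ δ, ξ ≤ δ → (t' : ℝ) < ρ δ → ¬ E R x s' δ})
    (by
      rintro t' s (h | ⟨ξ, h⟩) u hu
      · exact Or.inl (h.mono hu le_rfl)
      · exact Or.inr ⟨ξ, fun s' hs' => h s' (hs'.trans hu)⟩) r
    (by
      intro t' s _
      by_cases hU : U R ρ x s t'
      · exact ⟨s, le_rfl, Or.inl hU⟩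
      · simp only [U, not_forall] at hU
        obtain ⟨ξ, r', hr', hn⟩ := hU
        push Not at hn
        exact ⟨r', hr', Or.inr ⟨ξ, fun s' hs' δ h1 h2 h3 => hn s' hs' δ h1 h2 h3⟩⟩)
  -- the levels
  have h1 : ∀ t' : ℚ, ∃ ξ : W1, ¬ U R ρ x s0 t' →
      ∀ s' ≤ s0, ∀ δ, ξ ≤ δ → (t' : ℝ) < ρ δ → ¬ E R x s' δ := by
    intro t'
    rcases h0 t' with h2 | ⟨η, h2⟩
    · exact ⟨ξ, fun h3 => (h3 h2).elim⟩
    · exact ⟨η, fun _ => h2⟩
  choose c hc using h1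
  obtain ⟨b, hb⟩ := exists_gt (insert ξ (range c)) ((countable_range c).insert ξ)
  have hbξ : ξ < b := hb ξ (mem_insert _ _)
  have hbc : ∀ t', c t' ≤ b := fun t' => (hb _ (mem_insert_of_mem _ ⟨t', rfl⟩)).le
  have key : ∀ (s' : Cond K) (δ δ' : W1), s' ≤ s0 → b ≤ δ' → E R x s' δ' → ρ δ < ρ δ' →
      U R ρ x s' (ρ δ) := by
    intro s' δ δ' hs' hδ' hE hlt
    obtain ⟨t', ht1, ht2⟩ := exists_rat_btwn hlt
    have h2 : U R ρ x s0 t' := by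
      by_contra hn
      exact hc t' hn s' hs' δ' ((hbc t').trans hδ') ht2 hE
    exact h2.mono hs' ht1.le
  obtain ⟨s1, hs1, δ1, ha1, hb1, he1⟩ := h b s0 hs0
  obtain ⟨b', hb'⟩ := exists_gt_of δ1
  obtain ⟨s2, hs2, δ2, ha2, hb2, he2⟩ := h b' s1 (hs1.trans hs0)
  have hlt : δ1 < δ2 := hb'.trans_le ha2
  have hne : ρ δ1 ≠ ρ δ2 := fun h' => hlt.ne (hρ h')
  have hle : s2 ≤ s0 := hs2.trans hs1
  have hb2' : b ≤ δ2 := ha1.trans hlt.le
  rcases lt_or_gt_of_ne hne with h2 | h2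
  · exact ⟨s2, hle.trans hs0, δ1, hbξ.trans_le ha1, hb1, he1.mono hs2,
      key s2 δ1 δ2 hle hb2' he2 h2⟩
  · exact ⟨s2, hle.trans hs0, δ2, hbξ.trans_le hb2', hb2, he2,
      key s2 δ2 δ1 hle ha1 (he1.mono hs2) h2⟩

/-- Every uncountable set of branches contains an infinite comb with increasing values of `ρ`. -/
theorem exists_comb {R : W1 → K → Set (Cond K)} {p : Cond K} (hf : p ∈ IsFun R)
    (hi : p ∈ IsInj R) {ρ : W1 → ℝ} (hρ : Function.Injective ρ) (hρ0 : ∀ i, 0 < ρ i) :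
    ∃ q ≤ p, ∃ (h : ℕ → K) (δ : ℕ → W1), (∀ n, ∃ i, q ∈ meets (R i (h n))) ∧
      (∀ m n, m < n → δ m < δ n ∧ ρ (δ m) < ρ (δ n) ∧ Dl q (h m) (h n) (δ m)) := by
  classical
  obtain ⟨q0, hq0, x, hx, hgood⟩ := exists_good hf hi
  have hU := U_zero hρ0 hx hgood
  -- the states of the construction
  let S : Type := {s : Cond K × W1 × ℝ // U R ρ x s.1 s.2.2}
  have step : ∀ u : S, ∃ v : S, v.1.1 ≤ u.1.1 ∧ u.1.2.1 < v.1.2.1 ∧ u.1.2.2 < v.1.2.2 ∧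
      v.1.2.2 = ρ v.1.2.1 ∧ E R x v.1.1 v.1.2.1 := by
    rintro ⟨⟨r, ξ, t⟩, hu⟩
    obtain ⟨s, hs, δ, h1, h2, h3, h4⟩ := U_step hρ hu ξ
    exact ⟨⟨⟨s, δ, ρ δ⟩, h4⟩, hs, h1, h2, rfl, h3⟩
  choose g hg1 hg2 hg3 hg4 hg5 using step
  let P : ℕ → S := fun n => Nat.rec ⟨⟨q0, q0.a, 0⟩, hU⟩ (fun _ r => g r) n
  have hP : ∀ n, P (n + 1) = g (P n) := fun n => rfl
  obtain ⟨q, hq, _⟩ := exists_lower (fun n => (P n).1.1) (fun n => by
    show (P (n + 1)).1.1 ≤ (P n).1.1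
    rw [hP]
    exact hg1 (P n))
  have hE : ∀ n, ∃ a, Val R x q a ∧ Dl q a x (P (n + 1)).1.2.1 := by
    intro n
    have h1 : E R x (P (n + 1)).1.1 (P (n + 1)).1.2.1 := hg5 (P n)
    exact h1.mono (hq (n + 1))
  choose h hv hd using hE
  let δ : ℕ → W1 := fun n => (P (n + 1)).1.2.1
  have hδ : StrictMono δ := strictMono_nat_of_lt_succ fun n => by
    exact hg2 (P (n + 1))
  have hρδ : StrictMono fun n => ρ (δ n) := strictMono_nat_of_lt_succ fun n => by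
    have h1 : (P (n + 1)).1.2.2 < (P (n + 1 + 1)).1.2.2 := hg3 (P (n + 1))
    have h2 : (P (n + 1 + 1)).1.2.2 = ρ (P (n + 1 + 1)).1.2.1 := hg4 (P (n + 1))
    have h3 : (P (n + 1)).1.2.2 = ρ (P (n + 1)).1.2.1 := hg4 (P n)
    show ρ (P (n + 1)).1.2.1 < ρ (P (n + 1 + 1)).1.2.1
    rw [← h2, ← h3]
    exact h1
  refine ⟨q, (hq 0).trans hq0, h, δ, fun n => (hv n).2, ?_⟩
  intro m n hmn
  exact ⟨hδ hmn, hρδ hmn, (hd m).trans (hd n).symm (hδ hmn)⟩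

end Pool.Agent.TH766.KT
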