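import Mathlib
import Pool.Agent.Helper669.KDelta
import Pool.Agent.TH766.KT.Cond

set_option autoImplicit false

/-!
# The chain condition and the number of conditions
-/

namespace Pool.Agent.TH766.KT

open Cardinal Set

/-- Subsets of the countable ordinals with countably many elements. -/
abbrev Fn : Type := {g : W1 → Bool // {ξ | g ξ = true}.Countable}

theorem cont_pow : (𝔠 : Cardinal.{0}) ^ ℵ₀ = 𝔠 := by
  rw [← two_power_aleph0, ← power_mul, aleph0_mul_aleph0]

theorem mk_Fn : #Fn ≤ 𝔠 := by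
  refine (Cardinal.mk_le_of_injective (f := fun g : Fn =>
    (⟨{ξ | g.1 ξ = true}, g.2⟩ : {s : Set W1 // s.Countable})) ?_).trans
    (mk_countable_sets aleph0_le_continuum (mk_W1.le.trans aleph_one_le_continuum) cont_pow)
  intro g h hgh
  apply Subtype.ext
  funext ξ
  have h1 : {ξ | g.1 ξ = true} = {ξ | h.1 ξ = true} := congrArg Subtype.val hgh
  have h2 : g.1 ξ = true ↔ h.1 ξ = true := by
    have : ξ ∈ {ξ | g.1 ξ = true} ↔ ξ ∈ {ξ | h.1 ξ = true} := by rw [h1]
    exact this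
  exact Bool.eq_iff_iff.2 h2

variable {K : Type}

theorem countable_b (p : Cond K) (x : K) : {ξ | p.b x ξ = true}.Countable :=
  (countable_Iio p.a).mono fun ξ h => (p.out x ξ h).2

/-- The branches of a condition. -/
def fb (p : Cond K) (x : K) : Fn := ⟨p.b x, countable_b p x⟩

/-- The set of the branches of a condition. -/
def tr (p : Cond K) : {s : Set Fn // s.Countable} := ⟨fb p '' p.X, p.hc.image _⟩

/-- The branches whose names belong to a set. -/
def gr (p : Cond K) (R : Set K) : {s : Set (R × Fn) // s.Countable} :=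
  ⟨{y | y.1.1 ∈ p.X ∧ fb p y.1.1 = y.2}, by
    have h1 : Function.Injective (fun y : {y : R × Fn // y.1.1 ∈ p.X ∧ fb p y.1.1 = y.2} =>
        (⟨y.1.1.1, y.2.1⟩ : p.X)) := by
      rintro ⟨⟨y, g⟩, hy, hg⟩ ⟨⟨z, g'⟩, hz, hg'⟩ h
      have h2 : y.1 = z.1 := by simpa using h
      have h3 : y = z := Subtype.ext h2
      subst h3
      apply Subtype.ext
      have hg1 : fb p y.1 = g := hg
      have hg2 : fb p y.1 = g' := hg'
      show (y, g) = (y, g')
      rw [← hg1, ← hg2]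
    have : Countable p.X := Set.countable_coe_iff.2 p.hc
    exact Set.countable_coe_iff.1 (h1.countable)⟩

theorem cc (Z : Set (Cond K))
    (hZ : ∀ p ∈ Z, ∀ q ∈ Z, p ≠ q → ¬ ∃ r, r ≤ p ∧ r ≤ q) : #Z ≤ 𝔠 := by
  by_contra hcon
  obtain ⟨T, R, hT, hR, hTR⟩ := Pool.Agent.Helper669.KDelta.weak_delta (E := Z) (K := K)
    (c := 𝔠) aleph0_le_continuum hcon (fun b => b.1.X) (fun b => by
      refine lt_of_le_of_lt ?_ aleph0_lt_continuum
      exact Cardinal.mk_le_aleph0_iff.2 (Set.countable_coe_iff.2 b.1.hc))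
  have h1 : ¬ Function.Injective (fun p : T =>
      ((p.1.1.a, tr p.1.1, gr p.1.1 R) :
        W1 × {s : Set Fn // s.Countable} × {s : Set (R × Fn) // s.Countable})) := by
    intro hinj
    apply hT
    refine (Cardinal.mk_le_of_injective hinj).trans ?_
    have e0 : (𝔠 : Cardinal.{0}) * 𝔠 = 𝔠 := mul_eq_self aleph0_le_continuum
    have e1 : #{s : Set Fn // s.Countable} ≤ 𝔠 :=
      mk_countable_sets aleph0_le_continuum mk_Fn cont_pow
    have e2 : #{s : Set (R × Fn) // s.Countable} ≤ 𝔠 := by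
      refine mk_countable_sets aleph0_le_continuum ?_ cont_pow
      rw [← Cardinal.mul_def]
      calc #R * #Fn ≤ 𝔠 * 𝔠 := mul_le_mul' hR mk_Fn
        _ = 𝔠 := e0
    rw [← Cardinal.mul_def, ← Cardinal.mul_def]
    calc #W1 * (#{s : Set Fn // s.Countable} * #{s : Set (R × Fn) // s.Countable})
        ≤ 𝔠 * (𝔠 * 𝔠) :=
          mul_le_mul' (mk_W1.le.trans aleph_one_le_continuum) (mul_le_mul' e1 e2)
      _ = 𝔠 := by rw [e0, e0]
  simp only [Function.Injective, not_forall] at h1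
  obtain ⟨p, q, h2, hne⟩ := h1
  simp only [Prod.mk.injEq] at h2
  obtain ⟨ha, htr, hgr⟩ := h2
  have hne1 : p.1 ≠ q.1 := fun h => hne (Subtype.ext h)
  have hne2 : p.1.1 ≠ q.1.1 := fun h => hne1 (Subtype.ext h)
  have htr' : fb p.1.1 '' p.1.1.X = fb q.1.1 '' q.1.1.X := congrArg Subtype.val htr
  refine hZ p.1.1 p.1.2 q.1.1 q.1.2 hne2 (compat ha ?_ ?_ ?_)
  · intro x hx hx'
    have hxR : x ∈ R := hTR p.1 p.2 q.1 q.2 hne1 ⟨hx, hx'⟩
    have h3 : ((⟨x, hxR⟩, fb p.1.1 x) : R × Fn) ∈ (gr p.1.1 R).1 := ⟨hx, rfl⟩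
    rw [hgr] at h3
    have h4 : fb q.1.1 x = fb p.1.1 x := h3.2
    exact (congrArg Subtype.val h4).symm
  · intro x hx
    have h3 : fb p.1.1 x ∈ fb p.1.1 '' p.1.1.X := ⟨x, hx, rfl⟩
    rw [htr'] at h3
    obtain ⟨y, hy, h4⟩ := h3
    exact ⟨y, hy, (congrArg Subtype.val h4).symm⟩
  · intro y hy
    have h3 : fb q.1.1 y ∈ fb q.1.1 '' q.1.1.X := ⟨y, hy, rfl⟩
    rw [← htr'] at h3
    obtain ⟨x, hx, h4⟩ := h3
    exact ⟨x, hx, congrArg Subtype.val h4⟩

theorem mk_Cond (h1 : 𝔠 ≤ #K)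
    (h2 : #K ^ (ℵ₀ : Cardinal.{0}) = #K) : #(Cond K) ≤ #K := by
  have h0 : ℵ₀ ≤ #K := aleph0_le_continuum.trans h1
  have e1 : #{s : Set (↥(univ : Set K) × Fn) // s.Countable} ≤ #K := by
    refine mk_countable_sets h0 ?_ h2
    rw [← Cardinal.mul_def, mk_univ]
    calc #K * #Fn ≤ #K * #K := mul_le_mul' le_rfl (mk_Fn.trans h1)
      _ = #K := mul_eq_self h0
  refine (Cardinal.mk_le_of_injective (f := fun p : Cond K => (p.a, gr p univ)) ?_).trans ?_
  · intro p q h
    simp only [Prod.mk.injEq] at h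
    obtain ⟨ha, hg⟩ := h
    have hX : ∀ p q : Cond K, gr p univ = gr q univ → p.X ⊆ q.X := by
      intro p q hg x hx
      have h3 : ((⟨x, mem_univ x⟩, fb p x) : ↥(univ : Set K) × Fn) ∈ (gr p univ).1 := ⟨hx, rfl⟩
      rw [hg] at h3
      exact h3.1
    have hX' : p.X = q.X := (hX p q hg).antisymm (hX q p hg.symm)
    apply Cond.ext
    · exact hX'
    · exact ha
    · funext x
      by_cases hx : x ∈ p.X
      · have h3 : ((⟨x, mem_univ x⟩, fb p x) : ↥(univ : Set K) × Fn) ∈ (gr p univ).1 := ⟨hx, rfl⟩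
        rw [hg] at h3
        have h4 : fb q x = fb p x := h3.2
        exact (congrArg Subtype.val h4).symm
      · funext ξ
        rw [Cond.b_out (fun h => hx h.1), Cond.b_out (fun h => hx (hX' ▸ h.1))]
  · rw [← Cardinal.mul_def, mk_W1]
    calc ℵ_ 1 * #{s : Set (↥(univ : Set K) × Fn) // s.Countable} ≤ #K * #K :=
          mul_le_mul' (aleph_one_le_continuum.trans h1) e1
      _ = #K := mul_eq_self h0

end Pool.Agent.TH766.KT
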