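import Mathlib
import Pool.Agent.Helper980.Prikry.GDefs
import Pool.Agent.TH766.KT.Base

set_option autoImplicit false

/-!
# The strong partition problem for triples in the language of forcing
-/

namespace Pool.Agent.TH766.KT

open Cardinal Pool.Agent.Helper669.Forcing Pool.Agent.Helper669.K Pool.Agent.Helper980.G

section

variable {P : Type} [Preorder P]

/-- In the extension the set named by `A` has a countably infinite subset `H` such that
`φ t` holds for all three-element subsets `t` of `H`. -/
def InfHom {K : Type} (A : K → Set P) (φ : Finset K → Set P) : Set P :=
  fex fun H : K → Set P => fand (AtLeast ℕ H)
    (fand (fall fun x => fimp (meets (H x)) (meets (A x)))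
      (fall fun t : Finset K => fall fun _ : t.card = 3 =>
        fimp (fall fun x : K => fall fun _ : x ∈ t => meets (H x)) (φ t)))

variable (P)

/-- In the extension the triples of `K` can be divided into two classes (`C` names the first
class) such that every set `A ⊆ K` with at least `ℵ₁` elements has a countably infinite subset
all of whose triples are in the first class, and a countably infinite subset all of whose triples
are in the second class. -/
def StrongPartition (K : Type) : Set P :=
  fex fun C : Finset K → Set P => fall fun A : K → Set P =>
    fimp (AtLeast W1 A)
      (fand (InfHom A fun t => meets (C t)) (InfHom A fun t => fnot (meets (C t))))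

/-- In the extension the power set of `X` has at least as many elements as `Y`: there is a
family of pairwise different subsets of `X`, indexed by `Y`. -/
def LePower (X Y : Type) : Set P :=
  fex fun E : Y → X → Set P => fall fun y => fall fun y' => fall fun _ : y ≠ y' => fex fun x =>
    for' (fand (meets (E y x)) (fnot (meets (E y' x))))
      (fand (fnot (meets (E y x))) (meets (E y' x)))

/-- The first uncountable cardinal is preserved: in the extension there is no function from `ℕ`
onto the set of the countable ordinals of the ground model. -/
def OmegaOnePreserved : Set P :=
  fnot (fex fun R : ℕ → W1 → Set P => fand (IsFun R) (IsOnto R))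

/-- In the extension the power set of `X` has exactly as many elements as `Y`. -/
def PowerEq (X Y : Type) : Set P := fand (PowerLe P X Y) (LePower P X Y)

end

end Pool.Agent.TH766.KT
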