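import Mathlib
import Pool.Agent.Helper980.Prikry.GNeg
import Pool.Agent.Helper980.Polar.Gch
import Pool.Agent.TH766.KT.Defs
import Pool.Agent.TH766.KT.Core
import Pool.Agent.TH766.KT.Count

set_option autoImplicit false

/-!
# The forced statements
-/

namespace Pool.Agent.TH766.KT

open Cardinal Set Pool.Agent.Helper669.Forcing Pool.Agent.Helper669.K Pool.Agent.Helper980.G

section general

variable {P : Type} [Preorder P]

theorem meets_of_dense {N : Set P} {p : P} (h : ∀ q ≤ p, ∃ r ≤ q, r ∈ meets N) : p ∈ meets N := by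
  intro q hq
  obtain ⟨r, hr, h1⟩ := h q hq
  obtain ⟨s, hs, h2⟩ := h1 r le_rfl
  exact ⟨s, hs.trans hr, h2⟩

theorem meets_of_fimp {N M : Set P} {p : P} (h : p ∈ fimp (meets N) (meets M))
    (h' : p ∈ meets N) : p ∈ meets M :=
  meets_of_dense fun q hq => mem_fimp.1 h q hq (down_meets _ _ h' _ hq)

theorem atLeast_range {K : Type} {h : ℕ → K} (hinj : Function.Injective h) (p : P) :
    p ∈ AtLeast ℕ (fun x => fground (P := P) (x ∈ range h)) := by
  refine mem_fex.2 fun q _ => ⟨q, le_rfl, fun n x => fground (h n = x), ?_, ?_, ?_⟩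
  · refine ⟨fun y => mem_fex.2 fun r _ => ⟨r, le_rfl, h y, meets_of_mem rfl⟩,
      fun y x x' => mem_fimp.2 fun r _ hr => ⟨r, le_rfl, ?_⟩⟩
    obtain ⟨_, _, _, h1, _⟩ := hr.1 r le_rfl
    obtain ⟨_, _, _, h2, _⟩ := hr.2 r le_rfl
    have h1' : h y = x := h1
    have h2' : h y = x' := h2
    exact h1'.symm.trans h2'
  · refine fun y y' x => mem_fimp.2 fun r _ hr => ⟨r, le_rfl, ?_⟩
    obtain ⟨_, _, _, h1, _⟩ := hr.1 r le_rfl
    obtain ⟨_, _, _, h2, _⟩ := hr.2 r le_rfl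
    have h1' : h y = x := h1
    have h2' : h y' = x := h2
    exact hinj (h1'.trans h2'.symm)
  · refine fun y x => mem_fimp.2 fun r _ hr => ⟨r, le_rfl, ?_⟩
    obtain ⟨_, _, _, h1, _⟩ := hr r le_rfl
    have h1' : h y = x := h1
    exact meets_of_mem ⟨y, h1'⟩

theorem ground_of_meets {h : Prop} {p : P} (hp : p ∈ meets (fground (P := P) h)) : h := by
  obtain ⟨_, _, _, h1, _⟩ := hp p le_rfl
  exact h1

/-- GCH-like counting for arbitrary values -/
theorem powerLe_names {κ : Cardinal.{0}}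
    (hcc : ∀ Z : Set P, (∀ p ∈ Z, ∀ q ∈ Z, p ≠ q → ¬ ∃ r, r ≤ p ∧ r ≤ q) → #Z ≤ κ)
    {X Y : Type} (hN : ((#(Option P)) ^ κ) ^ #X ≤ #Y) (p : P) :
    p ∈ PowerLe P X Y := by
  classical
  let m : Type := κ.ord.ToType
  have hm : #m = κ := by simp [m]
  have hN : #(X → m → Option P) ≤ #Y := by
    have h1 : #(X → m → Option P) = (#(Option P) ^ #m) ^ #X := by simp
    rw [h1, hm]
    exact hN
  have hsurj : ∃ g : Y → X → m → Option P, Function.Surjective g := by
    obtain ⟨j⟩ := hN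
    have : Nonempty (X → m → Option P) := ⟨fun _ _ => none⟩
    exact ⟨Function.invFun j, Function.invFun_surjective j.injective⟩
  obtain ⟨g, hg⟩ := hsurj
  refine mem_fex.2 fun q _ => ⟨q, le_rfl, fun y x => {r | ∃ k, g y x k = some r}, ?_⟩
  intro A
  have h1 : ∀ x, ∃ f : m → Option P, meets (A x) = meets {r | ∃ k, f k = some r} := by
    intro x
    obtain ⟨Z, hZ1, hZ2, hZ3⟩ := exists_antichain {r | ∃ s ∈ A x, r ≤ s}
    obtain ⟨j⟩ : #Z ≤ #m := (hcc Z hZ2).trans hm.ge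
    refine ⟨fun k => if h : ∃ z, j z = k then some h.choose.1 else none, ?_⟩
    have h2 : {r | ∃ k, (if h : ∃ z, j z = k then some h.choose.1 else none) = some r} = Z := by
      ext r
      constructor
      · rintro ⟨k, hk⟩
        split_ifs at hk with h
        simp only [Option.some.injEq] at hk
        rw [← hk]
        exact h.choose.2
      · intro hr
        refine ⟨j ⟨r, hr⟩, ?_⟩
        have h : ∃ z, j z = j ⟨r, hr⟩ := ⟨_, rfl⟩
        rw [dif_pos h]
        have h3 : h.choose = ⟨r, hr⟩ := j.injective h.choose_spec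
        rw [h3]
    rw [h2]
    exact meets_congr (fun z hz => hZ1 hz) (fun s hs r hr => by
      obtain ⟨z, hz, t, ht, htz⟩ := hZ3 r ⟨s, hs, hr⟩
      exact ⟨z, hz, t, ht, htz⟩)
  choose f hf using h1
  obtain ⟨y, hy⟩ := hg f
  refine mem_fex.2 fun r _ => ⟨r, le_rfl, y, fun x => ?_⟩
  show r ∈ fand (fimp (meets (A x)) (meets {r | ∃ k, g y x k = some r}))
    (fimp (meets {r | ∃ k, g y x k = some r}) (meets (A x)))
  rw [hy, ← hf x]
  exact fiff_self r

theorem lePower_ground {X Y : Type} (h : #Y ≤ 2 ^ #X) (p : P) : p ∈ LePower P X Y := by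
  rw [← mk_set] at h
  obtain ⟨j⟩ := h
  refine mem_fex.2 fun q _ => ⟨q, le_rfl, fun y x => fground (x ∈ j y), ?_⟩
  intro y y' hne
  have h1 : ∃ x, ¬ (x ∈ j y ↔ x ∈ j y') := by
    by_contra hcon
    push Not at hcon
    exact hne (j.injective (Set.ext hcon))
  obtain ⟨x, hx⟩ := h1
  refine mem_fex.2 fun r _ => ⟨r, le_rfl, x, ?_⟩
  by_cases h2 : x ∈ j y
  · have h3 : x ∉ j y' := fun h3 => hx ⟨fun _ => h3, fun _ => h2⟩
    exact for_left (down_fand (down_meets _) (down_fnot _))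
      ⟨meets_of_mem h2, fun s _ hs => h3 (ground_of_meets hs)⟩
  · have h3 : x ∈ j y' := by
      by_contra h3
      exact hx ⟨fun h4 => (h2 h4).elim, fun h4 => (h3 h4).elim⟩
    exact for_right (down_fand (down_fnot _) (down_meets _))
      ⟨fun s _ hs => h2 (ground_of_meets hs), meets_of_mem h3⟩

end general

variable {K : Type}

/-- The generic branches are different. -/
theorem lePower_generic (p : Cond K) : p ∈ LePower (Cond K) W1 K := by
  refine mem_fex.2 fun q _ => ⟨q, le_rfl, fun y ξ => {r | r.b y ξ = true}, ?_⟩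
  intro y y' hne
  refine mem_fex.2 fun r _ => ?_
  obtain ⟨s, hs, h1⟩ := exists_mem r y
  obtain ⟨t, ht, h2⟩ := exists_mem s y'
  obtain ⟨ξ, hξ, h3⟩ := t.sep y (ht.1 h1) y' h2 hne
  refine ⟨t, ht.trans hs, ξ, ?_⟩
  have key : ∀ z ∈ t.X, t.b z ξ = false → t ∈ fnot (meets {r : Cond K | r.b z ξ = true}) := by
    intro z hz hf u hu h4
    obtain ⟨v, hv, w, hw, hvw⟩ := h4 u le_rfl
    have hw' : w.b z ξ = true := hw
    have h5 : v.b z ξ = true := by
      rw [hvw.2.2.1 z (w.out z ξ hw').1 ξ (w.out z ξ hw').2]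
      exact hw'
    rw [(hv.trans hu).2.2.1 z hz ξ hξ, hf] at h5
    exact absurd h5 (by simp)
  cases h4 : t.b y ξ with
  | true =>
    have h5 : t.b y' ξ = false := by
      cases h6 : t.b y' ξ with
      | false => rfl
      | true => exact (h3 (h4.trans h6.symm)).elim
    exact for_left (down_fand (down_meets _) (down_fnot _)) ⟨meets_of_mem h4, key y' h2 h5⟩
  | false =>
    have h5 : t.b y' ξ = true := by
      cases h6 : t.b y' ξ with
      | true => rfl
      | false => exact (h3 (h4.trans h6.symm)).elim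
    exact for_right (down_fand (down_fnot _) (down_meets _))
      ⟨key y (ht.1 h1) h4, meets_of_mem h5⟩

/-- The first class of triples. -/
def Col (ρ : W1 → ℝ) (t : Finset K) : Set (Cond K) :=
  {q | ∃ δ ε, δ < ε ∧ ρ δ < ρ ε ∧ (∃ x ∈ t, ∃ y ∈ t, Dl q x y δ) ∧ ∃ x ∈ t, ∃ y ∈ t, Dl q x y ε}

theorem down_Col (ρ : W1 → ℝ) (t : Finset K) : Down (Col ρ t) := by
  rintro p ⟨δ, ε, h1, h2, ⟨x, hx, y, hy, h3⟩, x', hx', y', hy', h4⟩ q hq
  exact ⟨δ, ε, h1, h2, ⟨x, hx, y, hy, h3.mono hq⟩, x', hx', y', hy', h4.mono hq⟩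

theorem Col_back {ρ : W1 → ℝ} {t : Finset K} {p q : Cond K} (h : q ∈ Col ρ t) (hq : q ≤ p)
    (ht : ∀ x ∈ t, x ∈ p.X) : p ∈ Col ρ t := by
  obtain ⟨δ, ε, h1, h2, ⟨x, hx, y, hy, h3⟩, x', hx', y', hy', h4⟩ := h
  exact ⟨δ, ε, h1, h2, ⟨x, hx, y, hy, h3.back hq (ht x hx) (ht y hy)⟩,
    x', hx', y', hy', h4.back hq (ht x' hx') (ht y' hy')⟩

/-- From combs to homogeneous sets. -/
theorem infHom_of_comb {A : K → Set (Cond K)} {R : W1 → K → Set (Cond K)} {q : Cond K}
    (hR : q ∈ (fall fun a => fall fun x => fimp (meets (R a x)) (meets (A x)) : Set (Cond K)))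
    {h : ℕ → K} (hinj : Function.Injective h) (hval : ∀ n, ∃ i, q ∈ meets (R i (h n)))
    {φ : Finset K → Set (Cond K)}
    (hφ : ∀ t : Finset K, t.card = 3 → (∀ x ∈ t, x ∈ range h) → q ∈ φ t)
    (hd : ∀ t, Down (φ t)) :
    q ∈ InfHom A φ := by
  refine mem_fex.2 fun r hr => ⟨r, le_rfl, fun x => fground (x ∈ range h),
    atLeast_range hinj r, ?_, ?_⟩
  · intro x
    refine mem_fimp.2 fun s hs h1 => ⟨s, le_rfl, ?_⟩
    obtain ⟨n, rfl⟩ := ground_of_meets h1
    obtain ⟨i, hi⟩ := hval n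
    have h2 : q ∈ meets (A (h n)) := meets_of_fimp (hR i (h n)) hi
    exact down_meets _ _ h2 _ (hs.trans hr)
  · intro t ht
    refine mem_fimp.2 fun s hs h1 => ⟨s, le_rfl, ?_⟩
    exact hd t _ (hφ t ht fun x hx => ground_of_meets (h1 x hx)) _ (hs.trans hr)

theorem comb_injective {q : Cond K} {h : ℕ → K} {δ : ℕ → W1}
    (hd : ∀ m n, m < n → Dl q (h m) (h n) (δ m)) : Function.Injective h := by
  intro m n hmn
  by_contra hne
  rcases lt_or_gt_of_ne hne with h1 | h1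
  · exact (hd m n h1).ne hmn
  · exact (hd n m h1).ne hmn.symm

/-- The strong partition. -/
theorem strongPartition (p : Cond K) : p ∈ StrongPartition (Cond K) K := by
  classical
  obtain ⟨ρ, hρ, hρ1⟩ := exists_real
  refine mem_fex.2 fun q0 _ => ⟨q0, le_rfl, Col ρ, fun A => mem_fimp.2 fun q _ hA => ?_⟩
  -- the first class
  obtain ⟨q1, hq1, R, hf, hi, hR⟩ := mem_fex.1 hA q le_rfl
  obtain ⟨q2, hq2, h, δ, hval, hcomb⟩ := exists_comb hf hi hρ (fun i => (hρ1 i).1)
  obtain ⟨q3, hq3, g, ε, hval', hcomb'⟩ := exists_comb (down_IsFun _ _ hf _ hq2)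
    (down_IsInj _ _ hi _ hq2) (ρ := fun i => 1 - ρ i)
    (fun a b hab => hρ (by simpa using hab)) (fun i => by
      have := (hρ1 i).2
      linarith)
  have hR' := down_fall (fun a => down_fall fun x => down_fimp (meets (R a x)) (meets (A x)))
    _ hR _ (hq3.trans hq2)
  refine ⟨q3, hq3.trans (hq2.trans hq1), ?_, ?_⟩
  · refine infHom_of_comb hR' (comb_injective fun m n hmn => (hcomb m n hmn).2.2)
      (fun n => (hval n).imp fun i hi' => down_meets _ _ hi' _ hq3) ?_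
      (fun t => down_meets _)
    intro t ht hsub
    refine meets_of_mem (down_Col ρ t q2 ?_ _ hq3)
    -- the indices
    have hinj : Function.Injective h := comb_injective fun m n hmn => (hcomb m n hmn).2.2
    obtain ⟨u, hu⟩ : ∃ u : Finset ℕ, u.image h = t := by
      refine ⟨t.preimage h hinj.injOn, ?_⟩
      rw [Finset.image_preimage]
      exact Finset.filter_true_of_mem hsub
    have huc : u.card = 3 := by
      rw [← Finset.card_image_of_injective u hinj, hu]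
      exact ht
    have hmem : ∀ a : Fin 3, h (u.orderEmbOfFin huc a) ∈ t := by
      intro a
      rw [← hu]
      exact Finset.mem_image_of_mem h (Finset.orderEmbOfFin_mem u huc a)
    have hlt : ∀ a b : Fin 3, a < b → u.orderEmbOfFin huc a < u.orderEmbOfFin huc b := by
      intro a b hab
      exact (u.orderEmbOfFin huc).lt_iff_lt.2 hab
    have c01 := hcomb _ _ (hlt 0 1 (by decide))
    have c12 := hcomb _ _ (hlt 1 2 (by decide))
    exact ⟨_, _, c01.1, c01.2.1, ⟨_, hmem 0, _, hmem 1, c01.2.2⟩, _, hmem 1, _, hmem 2, c12.2.2⟩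
  · refine infHom_of_comb hR' (comb_injective fun m n hmn => (hcomb' m n hmn).2.2)
      hval' ?_ (fun t => down_fnot _)
    intro t ht hsub r hr hm
    have hX : ∀ n, g n ∈ q3.X := fun n => (hcomb' n (n + 1) (Nat.lt_succ_self n)).2.2.1
    have htX : ∀ x ∈ t, x ∈ q3.X := by
      intro x hx
      obtain ⟨n, rfl⟩ := hsub x hx
      exact hX n
    obtain ⟨s, hs, v, hv, hsv⟩ := hm r le_rfl
    have h1 : q3 ∈ Col ρ t := Col_back (down_Col ρ t v hv s hsv) (hs.trans hr) htX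
    obtain ⟨a, b, hab, hρab, ⟨x, hx, y, hy, h3⟩, x', hx', y', hy', h4⟩ := h1
    -- the splitting levels of a comb
    have hlev : ∀ m n c, Dl q3 (g m) (g n) c → ∃ k, c = ε k := by
      intro m n c hc
      rcases lt_trichotomy m n with h5 | h5 | h5
      · exact ⟨m, hc.unique (hcomb' m n h5).2.2⟩
      · rw [h5] at hc
        exact (hc.ne rfl).elim
      · exact ⟨n, hc.symm.unique (hcomb' n m h5).2.2⟩
    obtain ⟨m, rfl⟩ := hsub x hx
    obtain ⟨n, rfl⟩ := hsub y hy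
    obtain ⟨m', rfl⟩ := hsub x' hx'
    obtain ⟨n', rfl⟩ := hsub y' hy'
    obtain ⟨k, rfl⟩ := hlev _ _ _ h3
    obtain ⟨k', rfl⟩ := hlev _ _ _ h4
    rcases lt_trichotomy k k' with h5 | h5 | h5
    · have h6 := (hcomb' k k' h5).2.1
      linarith
    · rw [h5] at hab
      exact lt_irrefl _ hab
    · exact lt_asymm hab (hcomb' k' k h5).1

/-- a step upwards -/
noncomputable def nxt (a : W1) : W1 := (exists_gt_of a).choose

theorem lt_nxt (a : W1) : a < nxt a := (exists_gt_of a).choose_spec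

/-- the `n`-th point above `a` -/
noncomputable def pt (a : W1) (n : ℕ) : W1 := nxt^[n] a

theorem pt_strictMono (a : W1) : StrictMono (pt a) := strictMono_nat_of_lt_succ fun n => by
  show nxt^[n] a < nxt^[n + 1] a
  rw [Function.iterate_succ_apply']
  exact lt_nxt _

theorem le_pt (a : W1) (n : ℕ) : a ≤ pt a n := (pt_strictMono a).monotone (Nat.zero_le n)

/-- coding a set of natural numbers into a branch -/
theorem exists_code (p : Cond K) {x : K} (hx : x ∈ p.X) (B : Set ℕ) :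
    ∃ q ≤ p, (∀ n, pt p.a n < q.a) ∧ ∀ n, q.b x (pt p.a n) = true ↔ n ∈ B := by
  classical
  obtain ⟨a, ha⟩ := exists_gt (range (pt p.a)) (countable_range _)
  have hlt : ∀ n, pt p.a n < a := fun n => ha _ ⟨n, rfl⟩
  have hpa : p.a < a := (le_pt p.a 0).trans_lt (hlt 0)
  let b : K → W1 → Bool := fun z ξ => if ξ < p.a then p.b z ξ else
    decide (z = x ∧ ∃ n ∈ B, ξ = pt p.a n)
  have hb : ∀ z, ∀ ξ < p.a, b z ξ = p.b z ξ := fun z ξ hξ => if_pos hξ
  refine ⟨{ X := p.X, a := a, b := b, hc := p.hc, hne := p.hne, out := ?_, sep := ?_ },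
    ⟨Subset.rfl, hpa.le, fun z _ ξ hξ => hb z ξ hξ, fun y hy => ⟨y, hy, fun ξ hξ => hb y ξ hξ⟩⟩,
    hlt, ?_⟩
  · intro z ξ h
    by_cases hξ : ξ < p.a
    · rw [hb z ξ hξ] at h
      exact ⟨(p.out z ξ h).1, hξ.trans hpa⟩
    · have h' : (if ξ < p.a then p.b z ξ else
        decide (z = x ∧ ∃ n ∈ B, ξ = pt p.a n)) = true := h
      rw [if_neg hξ] at h'
      obtain ⟨h1, n, _, h2⟩ := of_decide_eq_true h'
      rw [h1, h2]
      exact ⟨hx, hlt n⟩
  · intro y hy z hz hyz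
    obtain ⟨ξ, hξ, h⟩ := p.sep y hy z hz hyz
    refine ⟨ξ, hξ.trans hpa, ?_⟩
    rw [hb y ξ hξ, hb z ξ hξ]
    exact h
  · intro n
    show (if pt p.a n < p.a then p.b x (pt p.a n) else
        decide (x = x ∧ ∃ m ∈ B, pt p.a n = pt p.a m)) = true ↔ n ∈ B
    rw [if_neg (not_lt.2 (le_pt p.a n))]
    simp only [true_and, decide_eq_true_eq]
    constructor
    · rintro ⟨m, hm, h⟩
      rw [(pt_strictMono p.a).injective h]
      exact hm
    · intro h
      exact ⟨n, h, rfl⟩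

theorem decide_fun' (A Y : Type) (hA : #A ≤ ℵ₀) (R : A → Y → Set (Cond K)) (p : Cond K)
    (hp : p ∈ IsFun R) : ∃ q ≤ p, ∃ f : A → Y, ∀ a, q ∈ meets (R a (f a)) :=
  decide_fun A Y hA R p hp

/-- The continuum hypothesis is forced. -/
theorem powerLe_nat (p : Cond K) : p ∈ PowerLe (Cond K) ℕ W1 := by
  obtain ⟨x, hx⟩ := p.hne
  refine mem_fex.2 fun q hq => ⟨q, le_rfl, fun δ n => {r | r.b x (pt δ n) = true}, fun A => ?_⟩
  refine mem_fex.2 fun r hr => ?_
  obtain ⟨s, hs, h1⟩ := decide_subset (p := r) A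
    (fun Y R h => decide_fun' ℕ Y mk_nat.le R r h)
  have hxs : x ∈ s.X := (hs.trans (hr.trans hq)).1 hx
  obtain ⟨t, ht, h2, h3⟩ := exists_code s hxs {n | s ∈ meets (A n)}
  have hxt : x ∈ t.X := ht.1 hxs
  refine ⟨t, ht.trans hs, s.a, fun n => ⟨mem_fimp.2 fun u hu h4 => ⟨u, le_rfl, ?_⟩,
    mem_fimp.2 fun u hu h4 => ⟨u, le_rfl, ?_⟩⟩⟩
  · rcases h1 n with h5 | h5
    · have h6 : t.b x (pt s.a n) = true := (h3 n).2 h5
      refine down_meets _ _ (meets_of_mem ?_) _ hu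
      exact h6
    · exact absurd h4 (h5 u (hu.trans ht))
  · obtain ⟨v, hv, w, hw, hvw⟩ := h4 u le_rfl
    have hw' : w.b x (pt s.a n) = true := hw
    have h5 : v.b x (pt s.a n) = true := by
      rw [hvw.2.2.1 x (w.out x _ hw').1 _ (w.out x _ hw').2]
      exact hw'
    have h6 : t.b x (pt s.a n) = true := by
      rw [← (hv.trans hu).2.2.1 x hxt _ (h2 n)]
      exact h5
    have h7 : s ∈ meets (A n) := (h3 n).1 h6
    exact down_meets _ _ h7 _ (hu.trans ht)

/-- The first uncountable cardinal is preserved. -/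
theorem omegaOne (p : Cond K) : p ∈ OmegaOnePreserved (Cond K) := by
  intro q _ h
  obtain ⟨r, _, R, hR, hO⟩ := mem_fex.1 h q le_rfl
  obtain ⟨s, hs, f, hf⟩ := decide_fun ℕ W1 mk_nat.le R r hR
  have h1 : ∃ b : W1, b ∉ range f := by
    by_contra hcon
    push Not at hcon
    exact uncountable_univ ((countable_range f).mono fun b _ => hcon b)
  obtain ⟨b, hb⟩ := h1
  obtain ⟨t, ht, n, hn⟩ := mem_fex.1 (hO b) s hs
  apply hb
  exact ⟨n, IsFun.unique (down_IsFun _ _ hR _ (ht.trans hs)) (down_meets _ _ (hf n) _ ht) hn⟩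

/-- The forcing notion. -/
theorem forced (hK0 : 2 ≤ #K) (hK : #K ^ (𝔠 : Cardinal.{0}) = #K) :
    Nonempty (Cond K) ∧ ∀ p : Cond K,
      p ∈ OmegaOnePreserved (Cond K) ∧ p ∈ PowerEq (Cond K) ℕ W1 ∧
      p ∈ PowerEq (Cond K) W1 K ∧ p ∈ StrongPartition (Cond K) K ∧
      ((𝔠 : Cardinal.{0}) = ℵ_ 1 → p ∈ CardinalsPreserved.{0, 0} (Cond K)) := by
  have h2K : 2 ^ (𝔠 : Cardinal.{0}) ≤ #K := by
    rw [← hK]
    exact power_le_power_right hK0
  have hcK : 𝔠 ≤ #K := (cantor _).le.trans h2K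
  have h0K : ℵ₀ ≤ #K := aleph0_le_continuum.trans hcK
  have hKne : #K ≠ 0 := fun h => by
    rw [h] at h0K
    exact absurd h0K (not_le.2 aleph0_pos)
  have hKω : #K ^ (ℵ₀ : Cardinal.{0}) = #K := by
    apply le_antisymm
    · calc #K ^ (ℵ₀ : Cardinal.{0}) ≤ #K ^ (𝔠 : Cardinal.{0}) :=
            power_le_power_left hKne aleph0_le_continuum
        _ = #K := hK
    · exact self_le_power _ one_le_aleph0
  have hcard : #(Cond K) ≤ #K := mk_Cond hcK hKω
  have hdec : ∀ (A Y : Type) (_ : #A ≤ ℵ₀) (R : A → Y → Set (Cond K)) (p : Cond K),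
      p ∈ IsFun R → ∃ q ≤ p, ∃ f : A → Y, ∀ a, q ∈ meets (R a (f a)) := decide_fun
  have hne : Nonempty (Cond K) := by
    obtain ⟨x⟩ : Nonempty K := mk_ne_zero_iff.1 hKne
    have : Nonempty W1 := by
      rw [← mk_ne_zero_iff, mk_W1]
      exact (aleph_pos 1).ne'
    obtain ⟨a⟩ := this
    exact ⟨{ X := {x}, a := a, b := fun _ _ => false, hc := countable_singleton x
             hne := ⟨x, rfl⟩, out := fun _ _ h => absurd h (by simp)
             sep := fun y hy z hz hyz => (hyz (hy.trans hz.symm)).elim }⟩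
  refine ⟨hne, fun p => ⟨omegaOne p, ⟨powerLe_nat p, ?_⟩, ⟨?_, lePower_generic p⟩,
    strongPartition p, ?_⟩⟩
  · refine lePower_ground ?_ p
    rw [mk_nat, two_power_aleph0, mk_W1]
    exact aleph_one_le_continuum
  · refine powerLe_names (κ := 𝔠) cc ?_ p
    have h3 : #(Option (Cond K)) ≤ #K := by
      rw [mk_option]
      exact add_le_of_le h0K hcard (one_le_aleph0.trans h0K)
    calc (#(Option (Cond K)) ^ (𝔠 : Cardinal.{0})) ^ #W1
        ≤ (#K ^ (𝔠 : Cardinal.{0})) ^ #W1 :=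
          power_le_power_right (power_le_power_right h3)
      _ = #K ^ #W1 := by rw [hK]
      _ ≤ #K ^ (𝔠 : Cardinal.{0}) := power_le_power_left hKne
          (mk_W1.le.trans aleph_one_le_continuum)
      _ = #K := hK
  · intro hCH
    refine cardinals_preserved (θ := ℵ₀) (κ := 𝔠) aleph0_le_continuum ?_ cc hdec p
    intro ν hν
    rw [hCH, ← succ_aleph0]
    exact Order.succ_le_of_lt hν

/-- GCH in the extension, over a model of GCH. -/
theorem forced_GCH (hG : ∀ ν : Cardinal.{0}, ℵ₀ ≤ ν → 2 ^ ν = Order.succ ν) (hK2 : #K = ℵ_ 2)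
    (p : Cond K) : p ∈ ForcesGCH (Cond K) := by
  have hc : (𝔠 : Cardinal.{0}) = ℵ_ 1 := by
    rw [← two_power_aleph0, hG _ le_rfl, succ_aleph0]
  have h2 : (2 : Cardinal.{0}) ^ (ℵ_ 1 : Cardinal.{0}) = ℵ_ 2 := by
    rw [hG _ (aleph0_le_aleph 1), succ_aleph, one_add_one_eq_two]
  have hKω : #K ^ (ℵ₀ : Cardinal.{0}) = #K := by
    rw [hK2, ← h2, ← power_mul, mul_eq_left (aleph0_le_aleph 1) (aleph0_le_aleph 1)
      aleph0_ne_zero]
  have hcard : #(Cond K) ≤ #K := mk_Cond (by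
    rw [hc, hK2]
    exact aleph_le_aleph.2 one_le_two) hKω
  have hdec : ∀ (A Y : Type) (_ : #A ≤ ℵ₀) (R : A → Y → Set (Cond K)) (p : Cond K),
      p ∈ IsFun R → ∃ q ≤ p, ∃ f : A → Y, ∀ a, q ∈ meets (R a (f a)) := decide_fun
  intro X Y hX
  rcases le_or_gt #Y #X with h | h
  · exact for_left (down_fex _) (sizeLe_of_le h p)
  · have hX0 : ℵ₀ ≤ #X := aleph0_le_mk X
    have hY : 2 ^ #X ≤ #Y := by
      rw [hG _ hX0]
      exact Order.succ_le_of_lt h
    refine for_right (down_fex _) ?_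
    rcases le_or_gt #X ℵ₀ with h3 | h3
    · exact powerLe_small hY (fun A p => decide_subset A (fun Y R hp => hdec X Y h3 R p hp)) p
    · have h4 : 𝔠 ≤ #X := by
        rw [hc, ← succ_aleph0]
        exact Order.succ_le_of_lt h3
      refine powerLe_big (κ := 𝔠) aleph0_le_continuum cc ?_ h4 hY p
      refine hcard.trans ?_
      rw [hK2, hc, h2]

end Pool.Agent.TH766.KT
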