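import Mathlib
import Pool.Agent.TH766.KT.Base

set_option autoImplicit false

/-!
# The partition from a tree with countable levels, many branches and no Aronszajn subtree
-/

namespace Pool.Agent.TH766.KT

open Cardinal Set

/-- Every set of `ℵ₁` elements of `S` has a countably infinite subset all of whose triples
belong to the first class `C`, and one all of whose triples belong to the second class. -/
def StrongPartitionOf (S : Type) : Prop :=
  ∃ C : Set (Finset S), ∀ A : Set S, #A = ℵ_ 1 →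
    (∃ H ⊆ A, H.Infinite ∧ ∀ t : Finset S, t.card = 3 → (∀ x ∈ t, x ∈ H) → t ∈ C) ∧
    (∃ H ⊆ A, H.Infinite ∧ ∀ t : Finset S, t.card = 3 → (∀ x ∈ t, x ∈ H) → t ∉ C)

/-- `T` is a tree with all levels countable and `lev` gives the level of a node
(the levels are indexed by the countable ordinals). -/
structure IsTree (T : Type) [PartialOrder T] (lev : T → W1) : Prop where
  strict : ∀ s t, s < t → lev s < lev t
  exists_pred : ∀ t, ∀ α ≤ lev t, ∃ s ≤ t, lev s = α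
  unique_pred : ∀ t, ∀ s ≤ t, ∀ s' ≤ t, lev s = lev s' → s = s'
  countable : ∀ α, {t | lev t = α}.Countable

/-- `b` is a cofinal branch; `b α` is its node on the level `α`. -/
def IsBranch {T : Type} [PartialOrder T] (lev : T → W1) (b : W1 → T) : Prop :=
  (∀ α, lev (b α) = α) ∧ ∀ α β, α ≤ β → b α ≤ b β

/-- Every downward closed subset of `T` which meets all levels contains a cofinal branch. -/
def NoAronszajnSubtree {T : Type} [PartialOrder T] (lev : T → W1) : Prop :=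
  ∀ U : Set T, (∀ t ∈ U, ∀ s ≤ t, s ∈ U) → (∀ α, ∃ t ∈ U, lev t = α) →
    ∃ b, IsBranch lev b ∧ ∀ α, b α ∈ U

section comb

/-- unboundedly many elements of `D` have `ρ`-values above `t`. -/
def Ub (D : Set W1) (ρ : W1 → ℝ) (t : ℝ) : Prop := ∀ ξ, ∃ δ ∈ D, ξ ≤ δ ∧ t < ρ δ

theorem Ub.mono {D : Set W1} {ρ : W1 → ℝ} {t u : ℝ} (h : Ub D ρ t) (hu : u ≤ t) : Ub D ρ u := by
  intro ξ
  obtain ⟨δ, h1, h2, h3⟩ := h ξ
  exact ⟨δ, h1, h2, hu.trans_lt h3⟩

theorem Ub_step {D : Set W1} {ρ : W1 → ℝ} (hρ : Function.Injective ρ) {t : ℝ} (h : Ub D ρ t)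
    (ξ : W1) : ∃ δ ∈ D, ξ < δ ∧ t < ρ δ ∧ Ub D ρ (ρ δ) := by
  have h1 : ∀ t' : ℚ, ∃ ξ : W1, ¬ Ub D ρ t' → ∀ δ ∈ D, ξ ≤ δ → ¬ (t' : ℝ) < ρ δ := by
    intro t'
    by_cases h2 : Ub D ρ t'
    · exact ⟨ξ, fun h3 => (h3 h2).elim⟩
    · simp only [Ub, not_forall] at h2
      obtain ⟨η, h3⟩ := h2
      push Not at h3
      exact ⟨η, fun _ δ hδ hη => not_lt.2 (h3 δ hδ hη)⟩
  choose c hc using h1
  obtain ⟨b, hb⟩ := exists_gt (insert ξ (range c)) ((countable_range c).insert ξ)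
  have hbξ : ξ < b := hb ξ (mem_insert _ _)
  have hbc : ∀ t', c t' ≤ b := fun t' => (hb _ (mem_insert_of_mem _ ⟨t', rfl⟩)).le
  have key : ∀ δ δ' : W1, δ' ∈ D → b ≤ δ' → ρ δ < ρ δ' → Ub D ρ (ρ δ) := by
    intro δ δ' hD hδ' hlt
    obtain ⟨t', ht1, ht2⟩ := exists_rat_btwn hlt
    have h2 : Ub D ρ t' := by
      by_contra hn
      exact hc t' hn δ' hD ((hbc t').trans hδ') ht2
    exact h2.mono ht1.le
  obtain ⟨δ1, hd1, ha1, hb1⟩ := h b
  obtain ⟨b', hb'⟩ := exists_gt_of δ1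
  obtain ⟨δ2, hd2, ha2, hb2⟩ := h b'
  have hlt : δ1 < δ2 := hb'.trans_le ha2
  have hne : ρ δ1 ≠ ρ δ2 := fun h' => hlt.ne (hρ h')
  rcases lt_or_gt_of_ne hne with h2 | h2
  · exact ⟨δ1, hd1, hbξ.trans_le ha1, hb1, key δ1 δ2 hd2 (ha1.trans hlt.le) h2⟩
  · exact ⟨δ2, hd2, hbξ.trans_le (ha1.trans hlt.le), hb2, key δ2 δ1 hd1 ha1 h2⟩

/-- An unbounded set contains a sequence along which `ρ` increases. -/
theorem exists_mono {D : Set W1} (hD : ∀ ξ, ∃ δ ∈ D, ξ ≤ δ) {ρ : W1 → ℝ}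
    (hρ : Function.Injective ρ) (hρ0 : ∀ i, 0 < ρ i) :
    ∃ δ : ℕ → W1, (∀ n, δ n ∈ D) ∧ StrictMono δ ∧ StrictMono fun n => ρ (δ n) := by
  have h0 : Ub D ρ 0 := by
    intro ξ
    obtain ⟨δ, h1, h2⟩ := hD ξ
    exact ⟨δ, h1, h2, hρ0 δ⟩
  obtain ⟨δ0, -, -⟩ := exists_lub (fun _ => (Classical.choice (by
    rw [← mk_ne_zero_iff, mk_W1]
    exact (aleph_pos 1).ne') : W1))
  let St : Type := {u : W1 × ℝ // Ub D ρ u.2}
  have step : ∀ u : St, ∃ v : St, v.1.1 ∈ D ∧ u.1.1 < v.1.1 ∧ u.1.2 < v.1.2 ∧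
      v.1.2 = ρ v.1.1 := by
    rintro ⟨⟨ξ, t⟩, hu⟩
    obtain ⟨δ, h1, h2, h3, h4⟩ := Ub_step hρ hu ξ
    exact ⟨⟨⟨δ, ρ δ⟩, h4⟩, h1, h2, h3, rfl⟩
  choose g hg1 hg2 hg3 hg4 using step
  let P : ℕ → St := fun n => Nat.rec ⟨⟨δ0, 0⟩, h0⟩ (fun _ r => g r) n
  refine ⟨fun n => (P (n + 1)).1.1, fun n => hg1 (P n), strictMono_nat_of_lt_succ fun n =>
    hg2 (P (n + 1)), strictMono_nat_of_lt_succ fun n => ?_⟩
  have h1 : (P (n + 1)).1.2 < (P (n + 1 + 1)).1.2 := hg3 (P (n + 1))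
  have h2 : (P (n + 1 + 1)).1.2 = ρ (P (n + 1 + 1)).1.1 := hg4 (P (n + 1))
  have h3 : (P (n + 1)).1.2 = ρ (P (n + 1)).1.1 := hg4 (P n)
  show ρ (P (n + 1)).1.1 < ρ (P (n + 1 + 1)).1.1
  rw [← h2, ← h3]
  exact h1

end comb

section split

variable {T : Type}

/-- the functions `b` and `c` first differ at `δ` -/
def Df (b c : W1 → T) (δ : W1) : Prop := (∀ ξ < δ, b ξ = c ξ) ∧ b δ ≠ c δ

theorem Df.symm {b c : W1 → T} {δ : W1} (h : Df b c δ) : Df c b δ :=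
  ⟨fun ξ hξ => (h.1 ξ hξ).symm, h.2.symm⟩

theorem Df.unique {b c : W1 → T} {δ ε : W1} (h : Df b c δ) (h' : Df b c ε) : δ = ε := by
  rcases lt_trichotomy δ ε with h1 | h1 | h1
  · exact (h.2 (h'.1 δ h1)).elim
  · exact h1
  · exact (h'.2 (h.1 ε h1)).elim

theorem Df.ne {b c : W1 → T} {δ : W1} (h : Df b c δ) : b ≠ c := by
  rintro rfl
  exact h.2 rfl

theorem Df.trans {b c d : W1 → T} {δ ε : W1} (h : Df b c δ) (h' : Df c d ε) (hlt : δ < ε) :
    Df b d δ := by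
  refine ⟨fun ξ hξ => ?_, ?_⟩
  · rw [h.1 ξ hξ, h'.1 ξ (hξ.trans hlt)]
  · rw [← h'.1 δ hlt]
    exact h.2

theorem exists_Df {b c : W1 → T} (hbc : b ≠ c) : ∃ δ, Df b c δ := by
  have h0 : {ξ | b ξ ≠ c ξ}.Nonempty := by
    by_contra h
    rw [Set.not_nonempty_iff_eq_empty] at h
    apply hbc
    funext ξ
    by_contra h1
    have : ξ ∈ {ξ | b ξ ≠ c ξ} := h1
    rw [h] at this
    exact this
  obtain ⟨δ, hδ, hmin⟩ := (wellFounded_lt (α := W1)).has_min _ h0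
  refine ⟨δ, fun ξ hξ => ?_, hδ⟩
  by_contra h
  exact hmin ξ h hξ

end split

/-- Uncountable sets of branches have limit branches. -/
theorem exists_limit {T : Type} [PartialOrder T] {lev : T → W1} (hT : IsTree T lev)
    (hN : NoAronszajnSubtree lev) {S : Type} (e : S → W1 → T) (he : ∀ s, IsBranch lev (e s))
    (A : Set S) (hA : ¬ A.Countable) (hinj : Function.Injective e) :
    ∃ x : W1 → T, ∀ ξ, ∃ δ, (∃ a ∈ A, Df (e a) x δ) ∧ ξ ≤ δ := by
  obtain ⟨x, hx, hxU⟩ := hN {t | ¬ {a | a ∈ A ∧ e a (lev t) = t}.Countable}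
    (by
      intro t ht s hs hc
      apply ht
      refine hc.mono ?_
      rintro a ⟨ha, hat⟩
      refine ⟨ha, ?_⟩
      have hle : lev s ≤ lev t := by
        rcases hs.eq_or_lt with h | h
        · rw [h]
        · exact (hT.strict s t h).le
      refine hT.unique_pred t _ ?_ s hs ((he a).1 _)
      calc e a (lev s) ≤ e a (lev t) := (he a).2 _ _ hle
        _ = t := hat)
    (by
      intro α
      by_contra hcon
      push Not at hcon
      apply hA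
      have h1 : A ⊆ ⋃ t ∈ {t | lev t = α}, {a | a ∈ A ∧ e a α = t} := by
        intro a ha
        exact mem_biUnion (show e a α ∈ {t | lev t = α} from (he a).1 α) ⟨ha, rfl⟩
      refine ((hT.countable α).biUnion (t := fun t _ => {a | a ∈ A ∧ e a α = t}) ?_).mono h1
      intro t ht
      by_contra hc
      refine hcon t ?_ ht
      have ht' : lev t = α := ht
      show ¬ {a | a ∈ A ∧ e a (lev t) = t}.Countable
      rw [ht']
      exact hc)
  refine ⟨x, fun ξ => ?_⟩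
  have h1 := hxU ξ
  have h2 : ∃ a ∈ A, e a ξ = x ξ ∧ e a ≠ x := by
    by_contra hcon
    push Not at hcon
    apply h1
    refine Set.Subsingleton.countable ?_
    rintro a ⟨ha, hax⟩ b ⟨hb, hbx⟩
    rw [hx.1 ξ] at hax hbx
    exact hinj ((hcon a ha hax).trans (hcon b hb hbx).symm)
  obtain ⟨a, ha, hax, hne⟩ := h2
  obtain ⟨δ, hδ⟩ := exists_Df hne
  refine ⟨δ, ⟨a, ha, hδ⟩, ?_⟩
  by_contra hlt
  push Not at hlt
  apply hδ.2
  have h3 : e a δ ≤ e a ξ := (he a).2 _ _ hlt.le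
  have h4 : x δ ≤ x ξ := hx.2 _ _ hlt.le
  rw [hax] at h3
  exact hT.unique_pred (x ξ) _ h3 _ h4 (((he a).1 δ).trans (hx.1 δ).symm)

theorem strongPartitionOf_tree {T : Type} [PartialOrder T] {lev : T → W1} (hT : IsTree T lev)
    (hN : NoAronszajnSubtree lev) {S : Type} (hS : #S ≤ #{b : W1 → T // IsBranch lev b}) :
    StrongPartitionOf S := by
  classical
  obtain ⟨j⟩ := hS
  let e : S → W1 → T := fun s => (j s).1
  have he : ∀ s, IsBranch lev (e s) := fun s => (j s).2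
  have hinj : Function.Injective e := fun a b h => j.injective (Subtype.ext h)
  obtain ⟨ρ, hρ, hρ1⟩ := exists_real
  -- combs
  have comb : ∀ A : Set S, ¬ A.Countable → ∀ σ : W1 → ℝ, Function.Injective σ → (∀ i, 0 < σ i) →
      ∃ (h : ℕ → S) (δ : ℕ → W1), (∀ n, h n ∈ A) ∧ StrictMono δ ∧ (StrictMono fun n => σ (δ n)) ∧
        ∀ m n, m < n → Df (e (h m)) (e (h n)) (δ m) := by
    intro A hA σ hσ hσ0
    obtain ⟨x, hx⟩ := exists_limit hT hN e he A hA hinj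
    obtain ⟨δ, h1, h2, h3⟩ := exists_mono (D := {δ | ∃ a ∈ A, Df (e a) x δ}) hx hσ hσ0
    choose h h4 h5 using h1
    exact ⟨h, δ, h4, h2, h3, fun m n hmn => (h5 m).trans (h5 n).symm (h2 hmn)⟩
  refine ⟨{t | ∃ δ ε, δ < ε ∧ ρ δ < ρ ε ∧ (∃ x ∈ t, ∃ y ∈ t, Df (e x) (e y) δ) ∧
    ∃ x ∈ t, ∃ y ∈ t, Df (e x) (e y) ε}, fun A hA => ?_⟩
  have hA' : ¬ A.Countable := by
    rw [← Set.countable_coe_iff, ← Cardinal.mk_le_aleph0_iff, hA, not_le]
    exact aleph0_lt_aleph_one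
  have hinj' : ∀ (h : ℕ → S) (δ : ℕ → W1), (∀ m n, m < n → Df (e (h m)) (e (h n)) (δ m)) →
      Function.Injective h := by
    intro h δ hd m n hmn
    by_contra hne
    rcases lt_or_gt_of_ne hne with h1 | h1
    · exact (hd m n h1).ne (congrArg e hmn)
    · exact (hd n m h1).ne (congrArg e hmn.symm)
  constructor
  · obtain ⟨h, δ, h1, h2, h3, h4⟩ := comb A hA' ρ hρ (fun i => (hρ1 i).1)
    have hi := hinj' h δ h4
    refine ⟨range h, range_subset_iff.2 h1, infinite_range_of_injective hi, ?_⟩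
    intro t ht hsub
    obtain ⟨u, hu⟩ : ∃ u : Finset ℕ, u.image h = t := by
      refine ⟨t.preimage h hi.injOn, ?_⟩
      rw [Finset.image_preimage]
      exact Finset.filter_true_of_mem hsub
    have huc : u.card = 3 := by
      rw [← Finset.card_image_of_injective u hi, hu]
      exact ht
    have hmem : ∀ a : Fin 3, h (u.orderEmbOfFin huc a) ∈ t := by
      intro a
      rw [← hu]
      exact Finset.mem_image_of_mem h (Finset.orderEmbOfFin_mem u huc a)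
    have hlt : ∀ a b : Fin 3, a < b → u.orderEmbOfFin huc a < u.orderEmbOfFin huc b := by
      intro a b hab
      exact (u.orderEmbOfFin huc).lt_iff_lt.2 hab
    have l01 := hlt 0 1 (by decide)
    have l12 := hlt 1 2 (by decide)
    exact ⟨_, _, h2 l01, h3 l01, ⟨_, hmem 0, _, hmem 1, h4 _ _ l01⟩,
      _, hmem 1, _, hmem 2, h4 _ _ l12⟩
  · obtain ⟨h, δ, h1, h2, h3, h4⟩ := comb A hA' (fun i => 1 - ρ i)
      (fun a b hab => hρ (by simpa using hab)) (fun i => by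
        have := (hρ1 i).2
        linarith)
    have hi := hinj' h δ h4
    refine ⟨range h, range_subset_iff.2 h1, infinite_range_of_injective hi, ?_⟩
    rintro t ht hsub ⟨a, b, hab, hρab, ⟨x, hx, y, hy, h5⟩, x', hx', y', hy', h6⟩
    have hlev : ∀ m n c, Df (e (h m)) (e (h n)) c → ∃ k, c = δ k := by
      intro m n c hc
      rcases lt_trichotomy m n with h7 | h7 | h7
      · exact ⟨m, hc.unique (h4 m n h7)⟩
      · rw [h7] at hc
        exact (hc.ne rfl).elim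
      · exact ⟨n, hc.symm.unique (h4 n m h7)⟩
    obtain ⟨m, rfl⟩ := hsub x hx
    obtain ⟨n, rfl⟩ := hsub y hy
    obtain ⟨m', rfl⟩ := hsub x' hx'
    obtain ⟨n', rfl⟩ := hsub y' hy'
    obtain ⟨k, rfl⟩ := hlev _ _ _ h5
    obtain ⟨k', rfl⟩ := hlev _ _ _ h6
    have h7 : k < k' := h2.lt_iff_lt.1 hab
    have h8 : 1 - ρ (δ k) < 1 - ρ (δ k') := h3 h7
    linarith

/-- The case of the continuum hypothesis. -/
theorem strongPartitionOf_CH (hCH : (2 : Cardinal.{0}) ^ ℵ₀ = ℵ_ 1) {T : Type} [PartialOrder T]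
    {lev : T → W1} (hT : IsTree T lev) (hN : NoAronszajnSubtree lev)
    (hB : 2 ^ (ℵ_ 1 : Cardinal.{0}) ≤ #{b : W1 → T // IsBranch lev b}) (S : Type)
    (hS : #S = 2 ^ ((2 : Cardinal.{0}) ^ ℵ₀)) : StrongPartitionOf S := by
  refine strongPartitionOf_tree hT hN ?_
  rw [hS, hCH]
  exact hB

end Pool.Agent.TH766.KT
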